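import Pool.Agent.MP_f56020_al.L2.Cyc
import Pool.Agent.MP_f56020_al.Main

/-! Two cycles outside a subgroup are joined to a sequencing of the subgroup. -/

namespace Pool.Agent.SQL

open Function Finset Pool.Agent.SQ

variable {G Z : Type*} [Group G] [Finite Z] {F : Z → Z} {O O' : Set Z}

theorem Cyc.pth (hF : Injective F) (h : Cyc F O) (el : Z → G) {z : Z} (hz : z ∈ O) :
    ∃ V M, Pth ld (el (F z)) (el z) V M ∧ {el (F z)} + V = (st (· ∈ O)).map el ∧
      {ld (el z) (el (F z))} + M = (st (· ∈ O)).map fun z => ld (el z) (el (F z)) := by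
  obtain ⟨k, hk⟩ := Nat.exists_eq_succ_of_ne_zero (per_pos hF z).ne'
  have p := Pth.seq ld (fun i => el (F^[i] z)) 1 k
  have e0 : F^[1 + k] z = z := by
    rw [add_comm, ← Nat.succ_eq_add_one, ← hk]
    exact iterate_minimalPeriod
  have e1 := h.sum hF (h.inv z hz) (Set.toFinite O).toFinset (by simp)
    fun x => ({el x} : Multiset G)
  have e2 := h.sum hF hz (Set.toFinite O).toFinset (by simp)
    fun x => ({ld (el x) (el (F x))} : Multiset G)
  rw [minimalPeriod_apply (hF.mem_periodicPts z)] at e1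
  rw [hk, sum_range_succ', sum_single, sum_single] at e1 e2
  simp only [e0] at p
  refine ⟨_, _, p, ?_, ?_⟩
  · rw [add_comm, sum_single]
    refine Eq.trans ?_ e1
    simp only [← iterate_succ_apply, add_comm 1]
    rfl
  · rw [add_comm, sum_single]
    refine Eq.trans ?_ e2
    simp only [add_comm 1, iterate_succ_apply' F (_ + 1)]
    rfl

theorem asm [Finite G] (B : Subgroup G) {x y : B} {V : Multiset B}
    (p : Pth ld x y V (st (· ≠ 1))) (hV : {x} + V = al B) (hF : Injective F) (el : Z → G)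
    (he : Injective el) (hr : ∀ g, g ∉ B ↔ ∃ z, el z = g)
    (hl : Injective fun z => ld (el z) (el (F z))) (hl' : ∀ z, ld (el z) (el (F z)) ∉ B)
    (h1 : Cyc F O) (h2 : Cyc F O') (hO : ∀ z, z ∈ O' ↔ z ∉ O) {a c : Z} (ha : a ∈ O)
    (hc : c ∈ O') (s1 : el c * ld (el a) (el (F a)) ∈ B)
    (s2 : el (F a) = el c * ld (el a) (el (F a)) * (x⁻¹ * y : B) * ld (el c) (el (F c))) :
    SG G := by
  obtain ⟨Va, Ma, pa, va, ma⟩ := h1.pth hF el ha
  obtain ⟨Vc, Mc, pc, vc, mc⟩ := h2.pth hF el hc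
  set σ := el c * ld (el a) (el (F a)) with hσ
  have pb := (p.shift (⟨σ, s1⟩ * x⁻¹)).hom B.subtype
  rw [inv_mul_cancel_right] at pb
  have q := (((pc.trans (Pth.edge ld _ σ)).trans pb).trans (Pth.edge ld _ (el (F a)))).trans pa
  have oo : st (· ∈ O) + st (· ∈ O') = al Z :=
    st_add (fun z h h' => (hO z).1 h' h) fun z => by simp [hO, em]
  have sj : ∀ g, g ∉ B ↔ ∃ z, True ∧ ld (el z) (el (F z)) = g := by
    choose φ hφ using fun z => (hr _).1 (hl' z)
    have hi : Injective φ := fun z z' e => hl ((hφ z).symm.trans (e ▸ hφ z'))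
    refine fun g => ⟨fun hg => ?_, fun ⟨z, _, e⟩ => e ▸ hl' z⟩
    obtain ⟨w, rfl⟩ := (hr g).1 hg
    obtain ⟨z, rfl⟩ := Finite.surjective_of_injective hi w
    exact ⟨z, trivial, (hφ z).symm⟩
  have v1 : (al Z).map el = st (· ∉ B) := map_st he fun g => by simp [hr]
  have m1 : ((al Z).map fun z => ld (el z) (el (F z))) = st (· ∉ B) := map_st hl sj
  have v2 : (al B).map B.subtype = st (· ∈ B) :=
    map_st Subtype.val_injective fun g => by simp
  have m2 : (st fun g : B => g ≠ 1).map B.subtype = st fun g => g ∈ B ∧ g ≠ 1 :=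
    map_st Subtype.val_injective fun g => ⟨fun h => ⟨⟨g, h.1⟩, fun e => h.2 (congrArg Subtype.val e),
      rfl⟩, by
        rintro ⟨b, hb, rfl⟩
        exact ⟨b.2, fun e => hb (Subtype.ext e)⟩⟩
  have v3 : {σ} + (V.map ((⟨σ, s1⟩ * x⁻¹ : B) * ·)).map B.subtype = st (· ∈ B) := by
    rw [← v2, ← map_al (mul_right_injective (⟨σ, s1⟩ * x⁻¹ : B)), ← hV]
    simp
  refine ⟨_, _, _, q.cast rfl ?_, ?_⟩
  · have l1 : ld (el c) σ = ld (el a) (el (F a)) := by simp [hσ, ld]
    have l2 : ld (B.subtype (⟨σ, s1⟩ * x⁻¹ * y)) (el (F a)) = ld (el c) (el (F c)) := by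
      rw [ld, inv_mul_eq_iff_eq_mul, s2]
      simp [mul_assoc]
    rw [l1, l2, m2, ← st_add (p := fun g => g ∈ B ∧ g ≠ 1) (q := (· ∉ B)) (fun g h h' => h' h.1)
      fun g => ⟨fun h => (em _).imp_left fun h' => ⟨h', h⟩,
        fun h => h.elim And.right fun h e => h (e ▸ B.one_mem)⟩, ← m1, ← oo, Multiset.map_add, ← ma,
      ← mc]
    abel
  · have v4 : st (· ∈ B) + st (· ∉ B) = al G := st_add (fun g h h' => h' h) fun g => by simp [em]
    rw [← v4, ← v3, ← v1, ← oo, Multiset.map_add, ← va, ← vc]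
    abel

end Pool.Agent.SQL
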