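import Pool.Agent.MP_f56020_al.L2.Dyn

/-! The levels and the clock. -/

namespace Pool.Agent.SQL

open Function Finset AddSubgroup

/-- the exchange that is made at the time `m` -/
def fl (p n m : ℕ) : ℕ := if m < n * (p + 1) ∧ m % (p + 1) ≠ 1 then m / (p + 1) + 1 else 0

/-- the resting times -/
def tm (p n j : ℕ) : ℕ := if j = 0 then n * (p + 1) else (j - 1) * (p + 1) + 1

/-- the exchange at a point of the clock -/
def flo (p n : ℕ) {N : ℕ} : Option (ZMod N) → ℕ
  | none => 0
  | some k => fl p n k.val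

/-- the next level; the clock moves once in a round -/
def nx (n : ℕ) {r N : ℕ} (b : ZMod r × Option (ZMod N)) : ZMod r × Option (ZMod N) :=
  (b.1 + 1, if b.1.val = 2 * n then b.2.map (· + 1) else b.2)

variable {p n r N : ℕ}

theorem fl_le (m : ℕ) : fl p n m ≤ n := by
  unfold fl
  split_ifs with h
  · exact Nat.succ_le_of_lt ((Nat.div_lt_iff_lt_mul (Nat.succ_pos p)).2 h.1)
  · exact Nat.zero_le n

theorem flo_le (t : Option (ZMod N)) : flo p n t ≤ n := by
  cases t
  · exact Nat.zero_le n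
  · exact fl_le _

theorem fl_blk {j i : ℕ} (hj : j < n) (hi : i < p + 1) :
    fl p n (j * (p + 1) + i) = if i = 1 then 0 else j + 1 := by
  have h1 : j * (p + 1) + i < n * (p + 1) := by nlinarith
  have h2 : (j * (p + 1) + i) % (p + 1) = i := by
    rw [Nat.mul_add_mod', Nat.mod_eq_of_lt hi]
  have h3 : (j * (p + 1) + i) / (p + 1) = j := by
    rw [add_comm, Nat.add_mul_div_right _ _ (Nat.succ_pos p), Nat.div_eq_of_lt hi, zero_add]
  simp [fl, h1, h2, h3]

theorem fl_big {m : ℕ} (h : n * (p + 1) ≤ m) : fl p n m = 0 := if_neg fun c => c.1.not_ge h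

theorem tm_le (hp : 1 ≤ p) {j : ℕ} (hj : j ≤ n) : tm p n j ≤ n * (p + 1) := by
  unfold tm
  split_ifs with h
  · rfl
  · obtain ⟨i, rfl⟩ := Nat.exists_eq_succ_of_ne_zero h
    simp only [Nat.succ_sub_one]
    nlinarith [Nat.succ_le_iff.1 hj]

theorem fl_tm (hp : 1 ≤ p) {j : ℕ} (hj : j ≤ n) : fl p n (tm p n j) = 0 := by
  unfold tm
  split_ifs with h
  · exact fl_big le_rfl
  · rw [fl_blk (by omega) (by omega), if_pos rfl]

theorem sum_val [NeZero r] {M : Type*} [AddCommMonoid M] (f : ℕ → M) :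
    ∑ l : ZMod r, f l.val = ∑ i ∈ range r, f i :=
  sum_bij (fun l _ => l.val) (fun l _ => mem_range.2 l.val_lt)
    (fun _ _ _ _ h => ZMod.val_injective r h)
    (fun i hi => ⟨i, mem_univ _, ZMod.val_cast_of_lt (mem_range.1 hi)⟩) fun _ _ => rfl

theorem val_succ [NeZero r] (l : ZMod r) :
    ((l + 1).val = l.val + 1 ∧ l.val + 1 < r) ∨ ((l + 1).val = 0 ∧ l.val + 1 = r) := by
  have h1 : l + 1 = ((l.val + 1 : ℕ) : ZMod r) := by simp
  rcases (Nat.succ_le_of_lt l.val_lt).lt_or_eq with h | h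
  · exact Or.inl ⟨by rw [h1, ZMod.val_cast_of_lt h], h⟩
  · exact Or.inr ⟨by rw [h1, show l.val + 1 = r from h]; simp, h⟩

theorem nx_inj : Injective (nx n : ZMod r × Option (ZMod N) → _) := by
  rintro ⟨l, t⟩ ⟨l', t'⟩ h
  obtain ⟨h1, h2⟩ := Prod.ext_iff.1 h
  obtain rfl : l = l' := add_right_cancel h1
  simp only [nx] at h2
  split_ifs at h2
  · rw [Option.map_injective (add_left_injective 1) h2]
  · rw [h2]

theorem nx_iter [NeZero r] (t : Option (ZMod N)) {k : ℕ} (hk : k ≤ r) :
    (nx n)^[k] ((0 : ZMod r), t) = ((k : ZMod r), if k ≤ 2 * n then t else t.map (· + 1)) := by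
  induction k with
  | zero => simp
  | succ k ih =>
    rw [iterate_succ_apply', ih (by omega), nx, ZMod.val_cast_of_lt hk]
    refine Prod.ext (by simp) ?_
    simp only
    split_ifs <;> first | rfl | omega

theorem nx_rch [NeZero r] [NeZero N] (hr : 2 * n < r) (b : ZMod r × Option (ZMod N)) :
    Rch (nx n) (0, b.2.map fun _ => 0) b := by
  have h1 : ∀ (t : Option (ZMod N)) (k : ℕ), Rch (nx n) ((0 : ZMod r), t) (0, t.map (· + k)) := by
    intro t k
    induction k with
    | zero => simpa using Rch.refl _ _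
    | succ k ih =>
      refine ih.trans ⟨r, ?_⟩
      rw [nx_iter _ le_rfl, if_neg hr.not_ge]
      cases t <;> simp [add_assoc]
  have h2 : ∀ t t' : Option (ZMod N), t.isSome = t'.isSome →
      Rch (nx n) ((0 : ZMod r), t.map fun _ => 0) (0, t') := by
    rintro (_ | k) (_ | k') h
    · exact .refl _ _
    · simp at h
    · simp at h
    · simpa using h1 (some 0) k'.val
  obtain ⟨l, t⟩ := b
  by_cases c : l.val ≤ 2 * n
  · refine (h2 t t rfl).trans ⟨l.val, ?_⟩
    rw [nx_iter _ l.val_lt.le, if_pos c, ZMod.natCast_zmod_val]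
  · refine (h2 t (t.map (· - 1)) (by simp)).trans ⟨l.val, ?_⟩
    rw [nx_iter _ l.val_lt.le, if_neg c, ZMod.natCast_zmod_val]
    cases t <;> simp

variable {V : Type*} [AddCommGroup V]

theorem walk (hp : 1 ≤ p) (h0 : ∀ x : V, p • x = 0) (d : ℕ → V) (d0 : d 0 = 0) :
    (∀ m, n * (p + 1) ≤ m → ∑ i ∈ range m, d (fl p n i) = 0) ∧
      ∀ j ≤ n, ∑ i ∈ range (tm p n j), d (fl p n i) = d j := by
  have h1 : ∀ j ≤ n, ∑ i ∈ range (j * (p + 1)), d (fl p n i) = 0 := fun j hj => by
    induction j with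
    | zero => simp
    | succ j ih =>
      rw [Nat.succ_mul, sum_range_add, ih (by omega), zero_add,
        sum_congr rfl (g := fun i => d (j + 1) - if i = 1 then d (j + 1) else 0) fun i hi => by
          rw [fl_blk hj (mem_range.1 hi)]
          split_ifs <;> simp [d0],
        sum_sub_distrib, sum_ite_eq', if_pos (mem_range.2 (by omega)), sum_const, card_range,
        succ_nsmul, h0, zero_add, sub_self]
  have h2 : ∀ m, n * (p + 1) ≤ m → ∑ i ∈ range m, d (fl p n i) = 0 := fun m hm => by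
    induction hm with
    | refl => exact h1 n le_rfl
    | step hm ih => rw [sum_range_succ, ih, fl_big hm, d0, add_zero]
  refine ⟨h2, fun j hj => ?_⟩
  unfold tm
  split_ifs with h
  · rw [h1 n le_rfl, h, d0]
  · rw [sum_range_succ, h1 _ (by omega), zero_add, ← add_zero ((j - 1) * (p + 1)),
      fl_blk (by omega) (by omega), if_neg zero_ne_one, Nat.sub_add_cancel (by omega)]

theorem base [Finite V] [NeZero r] [NeZero N] (hp : 1 ≤ p) (h0 : ∀ x : V, p • x = 0)
    (hN : n * (p + 1) < N) (hq : p ∣ N + 1) (hr : 2 * n + 1 < r) (s : ℕ → ℕ → V)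
    (hs : ∀ l j, j ≤ n → 2 * n < l → s l j = s l 0) (e : V) (he : ∑ l ∈ range r, s l 0 = e)
    (hg : ∀ H : AddSubgroup V, e ∈ H →
      (∀ j, 1 ≤ j → j ≤ n → ∑ l ∈ range (2 * n + 1), (s l j - s l 0) ∈ H) → H = ⊤) :
    ∃ τ : V → ZMod r × Option (ZMod N) → ZMod r × Option (ZMod N), (∀ x, τ (x + e) = τ x) ∧
      (∀ x, Injective (τ x)) ∧
      (∀ x c, τ x c = c ∨ ∃ j ≤ n, c.1 = (2 * j : ℕ) ∧ (τ x c).1 = c.1 ∧
        (c.2 = none ∨ c.2 = some ((tm p n j : ℕ) : ZMod N))) ∧
      ∃ F : (ZMod r × Option (ZMod N)) × V → (ZMod r × Option (ZMod N)) × V,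
        (∀ z, F z = (τ (z.2 + s z.1.1.val (flo p n z.1.2)) (nx n z.1),
          z.2 + s z.1.1.val (flo p n z.1.2))) ∧ Injective F ∧
        ∃ O, Cyc F O ∧ Cyc F Oᶜ ∧ ((0, none), 0) ∈ O ∧ ∀ z ∈ O, z.1.2 = none := by
  classical
  let d : ℕ → V := fun j => ∑ l ∈ range (2 * n + 1), (s l j - s l 0)
  have d0 : d 0 = 0 := by simp [d]
  obtain ⟨w1, w2⟩ := walk (n := n) hp h0 d d0
  let ho : Option (ZMod N) → V := fun t => t.elim 0 fun k => ∑ i ∈ range k.val, d (fl p n i)
  let off : ZMod r × Option (ZMod N) → V := fun b =>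
    ho b.2 + ∑ l ∈ range b.1.val, s l (if b.1.val ≤ 2 * n then flo p n b.2 else 0)
  have hho : ∀ t, ho (t.map (· + 1)) = ho t + d (flo p n t) := by
    rintro (_ | k)
    · simp [ho, flo, d0]
    · simp only [ho, flo, Option.map_some, Option.elim_some]
      rcases val_succ k with ⟨h, -⟩ | ⟨h, h'⟩
      · rw [h, sum_range_succ]
      · rw [h, ← sum_range_succ fun i => d (fl p n i), h', w1 N hN.le, sum_range_zero]
  have lap : ∀ j ≤ n, ∑ l ∈ range r, s l j = e + d j := fun j hj => by
    rw [← he, ← sub_eq_iff_eq_add', ← sum_sub_distrib]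
    exact (sum_subset (range_mono hr.le) fun l _ h => by
      rw [hs l j hj (by simpa using h), sub_self]).symm
  have v2 : ∀ j ≤ n, ((2 * j : ℕ) : ZMod r).val = 2 * j := fun j hj =>
    ZMod.val_cast_of_lt (by omega)
  have vt : ∀ j ≤ n, ((tm p n j : ℕ) : ZMod N).val = tm p n j := fun j hj =>
    ZMod.val_cast_of_lt ((tm_le hp hj).trans_lt hN)
  have og : ∀ j ≤ n, off ((2 * j : ℕ), none) - off ((2 * j : ℕ), some ((tm p n j : ℕ) : ZMod N)) = -d j :=
    fun j hj => by simp [off, ho, flo, vt j hj, fl_tm hp hj, w2 j hj]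
  obtain ⟨τ, t1, t2, t3, t4, t5, t6⟩ := dyn (nx_inj (n := n)) (S := {b | b.2 = none})
    (.of_to nx_inj (fun b hb => by simp [nx, show b.2 = none from hb]) (0, none) fun b hb => by
      have := (nx_rch (n := n) (by omega) b).symm nx_inj
      rwa [show b.2 = none from hb] at this)
    (.of_to nx_inj (fun b hb h => hb (by
        simp only [nx, Set.mem_ofPred_eq] at h
        split_ifs at h
        · simpa using h
        · exact h)) (0, some 0) fun b hb => by
      have := (nx_rch (n := n) (by omega) b).symm nx_inj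
      obtain ⟨k, hk⟩ := Option.ne_none_iff_exists'.1 hb
      rwa [hk] at this)
    (fun b : ZMod r × Option (ZMod N) => s b.1.val (flo p n b.2)) off e
    (by
      rintro ⟨l, t⟩
      simp only [off, nx]
      rcases val_succ l with ⟨h, h'⟩ | ⟨h, h'⟩
      · rw [h]
        rcases lt_trichotomy l.val (2 * n) with c | c | c
        · rw [if_neg c.ne, if_pos (show l.val + 1 ≤ _ from c), if_pos c.le, sum_range_succ]
          convert (zmultiples e).zero_mem using 1
          abel
        · rw [if_pos c, if_neg (by omega), if_pos c.le, hho, sub_sub, add_assoc (ho t),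
            add_assoc (ho t), ← sum_range_succ fun i => s i (flo p n t), c]
          simp [d]
        · rw [if_neg c.ne', if_neg (by omega), if_neg c.not_ge, sum_range_succ,
            hs _ _ (flo_le t) c]
          convert (zmultiples e).zero_mem using 1
          abel
      · have c : 2 * n < l.val := by omega
        rw [h, if_neg c.ne', if_neg c.not_ge, sum_range_zero, hs _ _ (flo_le t) c, sub_sub,
          add_assoc (ho t) (∑ _ ∈ _, _), ← sum_range_succ fun i => s i 0, h', he]
        simp)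
    (by
      rw [sum_filter, Fintype.sum_prod_type, ← he, ← sum_val]
      exact sum_congr rfl fun l _ => by simp [flo])
    (by
      rw [Fintype.sum_prod_type_right, sum_congr rfl fun t _ =>
        (sum_val fun l => s l (flo p n t)).trans (lap _ (flo_le t)), sum_add_distrib,
        sum_const, Fintype.sum_option, card_univ, Fintype.card_option, ZMod.card]
      obtain ⟨k, hk⟩ := hq
      have := sum_val (r := N) fun i => d (fl p n i)
      simp only [flo, this, w1 N hN.le, d0, hk, mul_comm p, mul_nsmul, h0, add_zero])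
    n (fun j => ((2 * j : ℕ), none)) (fun j => ((2 * j : ℕ), some ((tm p n j : ℕ) : ZMod N))) (fun _ => rfl)
    (fun _ => by simp)
    (fun j j1 j2 h => by
      have := congrArg (fun b => b.1.val) h
      simp only [v2 j j2, v2 0 (Nat.zero_le n)] at this
      omega)
    (fun i hi j hj h => by
      have := congrArg (fun b => b.1.val) h
      simp only [v2 j hj, v2 i hi] at this
      omega)
    (hg _ (subset_closure (Set.mem_insert _ _)) fun j j1 j2 => neg_mem_iff.1 <|
      subset_closure (Set.mem_insert_of_mem _ ⟨j, j1, j2, by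
        rw [og j j2, og 0 (Nat.zero_le n), d0, neg_zero, sub_zero]⟩))
  refine ⟨τ, t1, t2, fun x c => (t3 x c).imp_right ?_, _, fun _ => rfl, t4, _, t5, t6,
    ⟨rfl, by simp [off, ho]⟩, fun z hz => hz.1⟩
  rintro ⟨j, hj, ⟨rfl, h⟩ | ⟨rfl, h⟩⟩
  · exact ⟨j, hj, rfl, by rw [h], Or.inl rfl⟩
  · exact ⟨j, hj, rfl, by rw [h], Or.inr rfl⟩

end Pool.Agent.SQL
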