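import Mathlib
import Pool.Agent.MP_f56020_al.s2.All

/-! Coordinates on the big cell of `SL(2, F)` and of its central quotient. -/

namespace Pool.Agent.SQL

open Function Matrix MatrixGroups Pool.Agent.SQ

variable {F : Type*} [Field F]

/-- the underlying matrix -/
def mt (m : SL(2, F)) : Matrix (Fin 2) (Fin 2) F := m.1

theorem mt_mul (a b : SL(2, F)) : mt (a * b) = mt a * mt b := rfl

theorem mt_one : mt (1 : SL(2, F)) = 1 := rfl

theorem mt_inv (a : SL(2, F)) : mt a⁻¹ = adjugate (mt a) := rfl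

theorem mt_ext {a b : SL(2, F)} (h : mt a = mt b) : a = b := Subtype.ext h

open Classical in
/-- the element `u(a) w(c) u(b)` of the big cell -/
noncomputable def cel (a c b : F) : SL(2, F) :=
  if h : c = 0 then 1 else ⟨!![a * c, a * b * c - c⁻¹; c, b * c], by
    rw [det_fin_two_of]
    field_simp
    ring⟩

theorem mt_cel {c : F} (h : c ≠ 0) (a b : F) :
    mt (cel a c b) = !![a * c, a * b * c - c⁻¹; c, b * c] := by rw [cel, dif_neg h]; rfl

/-- the upper triangular matrices -/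
def Bor (F : Type*) [Field F] : Subgroup SL(2, F) where
  carrier := {m | mt m 1 0 = 0}
  one_mem' := by simp [mt_one]
  mul_mem' := fun {a b} ha hb => by
    simp only [Set.mem_ofPred_eq] at ha hb ⊢
    simp [mt_mul, mul_apply, Fin.sum_univ_two, ha, hb]
  inv_mem' := fun {a} ha => by
    simp only [Set.mem_ofPred_eq] at ha ⊢
    simp [mt_inv, adjugate_fin_two, ha]

theorem mem_Bor {m : SL(2, F)} : m ∈ Bor F ↔ mt m 1 0 = 0 := Iff.rfl

theorem det_eq (m : SL(2, F)) : mt m 0 0 * mt m 1 1 - mt m 0 1 * mt m 1 0 = 1 := by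
  rw [← det_fin_two]
  exact m.2

theorem Bor_diag {m : SL(2, F)} (h : m ∈ Bor F) : mt m 0 0 ≠ 0 ∧ mt m 1 1 = (mt m 0 0)⁻¹ := by
  have := det_eq m
  rw [mem_Bor.1 h, mul_zero, sub_zero] at this
  exact ⟨left_ne_zero_of_mul_eq_one this, eq_inv_of_mul_eq_one_right this⟩

theorem cel_step {y g c : F} (hy : y ≠ 0) (hg : g ≠ 0) (hc : c ≠ 0) (x u u' : F) :
    cel x y u * cel (-u + g / c) c (u' + (g * c)⁻¹) = cel (x - c / (g * y ^ 2)) (g * y) u' := by
  refine mt_ext ?_
  rw [mt_mul, mt_cel hy, mt_cel hc, mt_cel (mul_ne_zero hg hy), mul_fin_two]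
  ext i j
  fin_cases i <;> fin_cases j <;> simp <;> field_simp <;> ring

theorem cel_Bor {y c : F} (hy : y ≠ 0) (hc : c ≠ 0) (x u b : F) :
    cel x y u * cel (-u) c b ∈ Bor F := by
  rw [mem_Bor, mt_mul, mt_cel hy, mt_cel hc, mul_fin_two]
  simp
  ring

theorem cel_star {y c c' : F} (hy : y ≠ 0) (hc : c ≠ 0) (hc' : c' ≠ 0) {m : SL(2, F)}
    (hm : m ∈ Bor F) (x u b a b' : F) :
    cel x y u * cel (-u) c b * m * cel a c' b' =
      cel (x + (c / y) ^ 2 * (b + mt m 0 0 * mt m 0 1 + mt m 0 0 ^ 2 * a))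
        (-(y * c') / (c * mt m 0 0)) b' := by
  obtain ⟨h1, h2⟩ := Bor_diag hm
  have e : mt m = !![mt m 0 0, mt m 0 1; 0, (mt m 0 0)⁻¹] := by
    rw [← h2, ← mem_Bor.1 hm]
    exact eta_fin_two _
  refine mt_ext ?_
  rw [mt_mul, mt_mul, mt_mul,
    mt_cel hy, mt_cel hc, mt_cel hc', mt_cel (by simp [hy, hc, hc', h1])]
  generalize mt m 0 0 = θ at *
  generalize mt m 0 1 = t at *
  rw [e, mul_fin_two, mul_fin_two, mul_fin_two]
  ext i j
  fin_cases i <;> fin_cases j <;> simp <;> field_simp <;> ring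

theorem Bor_solv : Group.IsSolvable (Bor F) := by
  let φ : Bor F →* F :=
    { toFun := fun m => mt m.1 0 0
      map_one' := by simp [mt_one]
      map_mul' := fun a b => by simp [mt_mul, mul_apply, Fin.sum_univ_two, mem_Bor.1 b.2] }
  have : Group.IsSolvable φ.toHomUnits.ker := Group.isSolvable_of_comm fun a b => by
    have ha : mt a.1.1 0 0 = 1 := congrArg Units.val (MonoidHom.mem_ker.1 a.2)
    have hb : mt b.1.1 0 0 = 1 := congrArg Units.val (MonoidHom.mem_ker.1 b.2)
    have ha' := (Bor_diag a.1.2).2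
    have hb' := (Bor_diag b.1.2).2
    rw [ha, inv_one] at ha'
    rw [hb, inv_one] at hb'
    refine Subtype.ext (Subtype.ext (mt_ext ?_))
    ext i j
    fin_cases i <;> fin_cases j <;>
      simp [mt_mul, mul_apply, Fin.sum_univ_two, ha, hb, ha', hb', mem_Bor.1 a.1.2, mem_Bor.1 b.1.2,
        add_comm]
  exact Group.isSolvable_of_ker_le_range φ.toHomUnits.ker.subtype φ.toHomUnits (by simp)

/-- `π` is the quotient by the scalars `1` and `ε` -/
structure Qt {G : Type*} [Group G] (π : SL(2, F) →* G) (ε : F) : Prop where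
  sq : ε * ε = 1
  sj : Surjective π
  ker : ∀ m m', π m = π m' ↔ m = m' ∨ mt m = ε • mt m'

variable {G : Type*} [Group G] {π : SL(2, F) →* G} {ε : F}

theorem Qt.ne (h : Qt π ε) : ε ≠ 0 := left_ne_zero_of_mul_eq_one h.sq

theorem Qt.mem (h : Qt π ε) {m : SL(2, F)} : π m ∈ (Bor F).map π ↔ m ∈ Bor F := by
  refine ⟨?_, fun hm => ⟨m, hm, rfl⟩⟩
  rintro ⟨m', hm, e⟩
  rcases (h.ker _ _).1 e.symm with rfl | e
  · exact hm
  · rw [mem_Bor, e, Matrix.smul_apply, mem_Bor.1 hm, smul_zero]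

theorem Qt.mk_out (h : Qt π ε) {c : F} (hc : c ≠ 0) (a b : F) : π (cel a c b) ∉ (Bor F).map π := by
  rw [h.mem, mem_Bor, mt_cel hc]
  simpa using hc

theorem Qt.mk_eps (h : Qt π ε) {c : F} (hc : c ≠ 0) (a b : F) :
    π (cel a (ε * c) b) = π (cel a c b) := by
  refine (h.ker _ _).2 (Or.inr ?_)
  have e : ε⁻¹ = ε := (eq_inv_of_mul_eq_one_right h.sq).symm
  rw [mt_cel hc, mt_cel (mul_ne_zero h.ne hc), mul_inv, e]
  ext i j
  fin_cases i <;> fin_cases j <;> simp <;> ring

theorem Qt.mk_inj (h : Qt π ε) {c c' a a' b b' : F} (hc : c ≠ 0) (hc' : c' ≠ 0)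
    (e : π (cel a c b) = π (cel a' c' b')) : (c = c' ∨ c = ε * c') ∧ a = a' ∧ b = b' := by
  have key : ∀ {c c' : F}, c ≠ 0 → c' ≠ 0 → mt (cel a c b) = mt (cel a' c' b') →
      c = c' ∧ a = a' ∧ b = b' := fun {c c'} hc hc' e => by
    rw [mt_cel hc, mt_cel hc'] at e
    have e1 : c = c' := congrFun (congrFun e 1) 0
    have e2 : a * c = a' * c' := congrFun (congrFun e 0) 0
    have e3 : b * c = b' * c' := congrFun (congrFun e 1) 1
    subst e1
    exact ⟨rfl, mul_right_cancel₀ hc e2, mul_right_cancel₀ hc e3⟩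
  rcases (h.ker _ _).1 e with e | e
  · exact (key hc hc' (congrArg mt e)).imp_left Or.inl
  · refine (key hc (mul_ne_zero h.ne hc') (e.trans ?_)).imp_left Or.inr
    have e : ε⁻¹ = ε := (eq_inv_of_mul_eq_one_right h.sq).symm
    rw [mt_cel hc', mt_cel (mul_ne_zero h.ne hc'), mul_inv, e]
    ext i j
    fin_cases i <;> fin_cases j <;> simp <;> ring

theorem Qt.out (h : Qt π ε) {g : G} (hg : g ∉ (Bor F).map π) :
    ∃ a c b, c ≠ 0 ∧ π (cel a c b) = g := by
  obtain ⟨m, rfl⟩ := h.sj g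
  have hc : mt m 1 0 ≠ 0 := fun e => hg (h.mem.2 e)
  refine ⟨mt m 0 0 / mt m 1 0, mt m 1 0, mt m 1 1 / mt m 1 0, hc, congrArg π (mt_ext ?_)⟩
  have := det_eq m
  rw [mt_cel hc]
  ext i j
  fin_cases i <;> fin_cases j <;> simp [hc]
  field_simp
  linear_combination this

theorem Qt.sg [Finite F] [Finite G] (h : Qt π ε) (h7 : 7 ≤ Nat.card F) {g : F} (g0 : g ≠ 0)
    (g1 : g ≠ 1) (g2 : g ≠ ε) (g3 : g * g ≠ 1) : SG ((Bor F).map π) := by
  have := Bor_solv (F := F)
  have : Group.IsSolvable ((Bor F).map π) :=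
    Group.isSolvable_of_surjective (π.subgroupMap_surjective (Bor F))
  let t : Fˣ → F → (Bor F).map π := fun k x =>
    ⟨π ⟨!![k, x; 0, (k : F)⁻¹], by simp [det_fin_two_of]⟩, h.mem.2 rfl⟩
  have c9 : 9 ≤ Nat.card ((Bor F).map π) := by
    have hi : Injective fun z : Bool × F => t (if z.1 then 1 else Units.mk0 g g0) z.2 := by
      rintro ⟨i, x⟩ ⟨j, y⟩ e
      rcases (h.ker _ _).1 (congrArg Subtype.val e) with e | e
      · have e0 := congrArg mt e
        have e1 := congrFun (congrFun e0 0) 0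
        have e2 := congrFun (congrFun e0 0) 1
        cases i <;> cases j <;> simp_all [mt]
      · have e1 := congrFun (congrFun e 0) 0
        have e2 := congrFun (congrFun e 0) 1
        have e3 : ε * g ≠ 1 := fun c => g2 (mul_left_cancel₀ h.ne (c.trans h.sq.symm))
        cases i <;> cases j <;> simp [mt] at e1 e2
        · rw [e2, mul_right_cancel₀ g0 (e1.symm.trans (one_mul g).symm), one_mul]
        · exact absurd e1 g2
        · exact absurd e1.symm e3
        · rw [e2, ← e1, one_mul]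
    have := Nat.card_le_card_of_injective _ hi
    rw [Nat.card_prod, Nat.card_eq_fintype_card, Fintype.card_bool] at this
    omega
  refine SQ2.seq_all _ (fun c => ?_) (by omega) (by omega)
  have e := congrArg Subtype.val (c (t (Units.mk0 g g0) 0) (t 1 1))
  simp only [t, Subgroup.coe_mul, ← map_mul] at e
  rcases (h.ker _ _).1 e with e | e
  · have e1 := congrFun (congrFun (congrArg mt e) 0) 1
    simp only [mt_mul] at e1
    simp [mt] at e1
    exact g3 (by rw [mul_eq_one_iff_eq_inv₀ g0]; exact e1)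
  · have e1 := congrFun (congrFun e 0) 1
    have e2 := congrFun (congrFun e 0) 0
    simp only [mt_mul] at e1 e2
    simp [mt, g0] at e1 e2
    rw [e2, one_mul] at e1
    exact g3 (by rw [mul_eq_one_iff_eq_inv₀ g0]; exact e1)

end Pool.Agent.SQL
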