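import Pool.Agent.MP_f56020_al.L2.Num
import Pool.Agent.MP_f56020_al.L2.Mat

/-! The map on the big cell: vertices and labels. -/

namespace Pool.Agent.SQL

open Function Finset Matrix MatrixGroups Pool.Agent.SQ

variable {F : Type*} [Field F] {G : Type*} [Group G] {π : SL(2, F) →* G} {ε : F}

theorem Qt.rl (h : Qt π ε) {c c' : F} (hc : c' ≠ 0) (e : Rl ε c c') (a b : F) :
    π (cel a c b) = π (cel a c' b) := by
  rcases e with rfl | rfl
  · rfl
  · exact h.mk_eps hc a b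

/-- the data of the construction -/
structure Dat (ε : F) (p n r N : ℕ) where
  g : F
  c : ℕ → F
  e : F
  E : Option (ZMod N) ≃ F
  lam : ZMod r → F
  τ : F → ZMod r × Option (ZMod N) → ZMod r × Option (ZMod N)
  Φ : (ZMod r × Option (ZMod N)) × F → (ZMod r × Option (ZMod N)) × F
  hr : 2 * n + 1 < r
  g0 : g ≠ 0
  vg : Val ε r (g ^ ·)
  gr : g ^ r = ε
  vc : Val ε r c
  la : ∀ l, lam l ≠ lam (l + 1)
  lb : ∀ j ≤ n, lam (2 * j : ℕ) = 0
  lc : ∀ j ≤ n, ∀ l : ZMod r, l + 1 = (2 * j : ℕ) → lam l * e = E (some ((tm p n j : ℕ) : ZMod N)) - E none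
  t1 : ∀ x, τ (x + e) = τ x
  t2 : ∀ x, Injective (τ x)
  t3 : ∀ x c, τ x c = c ∨ ∃ j ≤ n, c.1 = (2 * j : ℕ) ∧ (τ x c).1 = c.1 ∧
    (c.2 = none ∨ c.2 = some ((tm p n j : ℕ) : ZMod N))
  hΦ : ∀ z, Φ z = (τ (z.2 + c (Equiv.swap 0 (2 * flo p n z.1.2) z.1.1.val) *
      -(g * (g ^ z.1.1.val) ^ 2)⁻¹) (nx n z.1),
    z.2 + c (Equiv.swap 0 (2 * flo p n z.1.2) z.1.1.val) * -(g * (g ^ z.1.1.val) ^ 2)⁻¹)

namespace Dat

variable {p n r N : ℕ} [NeZero r] (D : Dat ε p n r N) (nu : ZMod r → F)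

/-- the class of the label -/
def cc (z : (ZMod r × Option (ZMod N)) × F) : F :=
  D.c (Equiv.swap 0 (2 * flo p n z.1.2) z.1.1.val)

/-- the last coordinate -/
def U (z : (ZMod r × Option (ZMod N)) × F) : F := D.E z.1.2 + D.lam z.1.1 * z.2 + nu z.1.1

/-- the vertex -/
noncomputable def el (π : SL(2, F) →* G) (z : (ZMod r × Option (ZMod N)) × F) : G :=
  π (cel z.2 (D.g ^ z.1.1.val) (D.U nu z))

include D in
theorem sw_lt (z : (ZMod r × Option (ZMod N)) × F) :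
    Equiv.swap 0 (2 * flo p n z.1.2) z.1.1.val < r := by
  have := D.hr
  have := flo_le (p := p) (n := n) z.1.2
  have := z.1.1.val_lt
  rw [Equiv.swap_apply_def]
  split_ifs <;> omega

theorem cc_ne (z : (ZMod r × Option (ZMod N)) × F) : D.cc z ≠ 0 := D.vc.ne _ (D.sw_lt z)

omit [NeZero r] in
theorem tau1 (x : F) (b : ZMod r × Option (ZMod N)) : (D.τ x b).1 = b.1 :=
  (D.t3 x b).elim (congrArg Prod.fst) fun ⟨_, _, h⟩ => h.2.1

omit [NeZero r] in
theorem lev (z : (ZMod r × Option (ZMod N)) × F) : (D.Φ z).1.1 = z.1.1 + 1 := by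
  rw [D.hΦ, D.tau1]
  rfl

omit [NeZero r] in
theorem pos (z : (ZMod r × Option (ZMod N)) × F) :
    (D.Φ z).2 = z.2 - D.cc z / (D.g * (D.g ^ z.1.1.val) ^ 2) := by
  rw [D.hΦ, cc, mul_neg, ← sub_eq_add_neg, div_eq_mul_inv]

theorem step (h : Qt π ε) (z : (ZMod r × Option (ZMod N)) × F) :
    ld (D.el nu π z) (D.el nu π (D.Φ z)) = π (cel (-D.U nu z + D.g / D.cc z) (D.cc z)
      (D.U nu (D.Φ z) + (D.g * D.cc z)⁻¹)) := by
  rw [ld, inv_mul_eq_iff_eq_mul, el, el, ← map_mul, cel_step (pow_ne_zero _ D.g0) D.g0 (D.cc_ne z),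
    D.pos, D.lev]
  refine (h.rl (pow_ne_zero _ D.g0) ?_ _ _).symm
  rw [← pow_succ']
  rcases val_succ z.1.1 with ⟨e, -⟩ | ⟨e, e'⟩
  · rw [e]
    exact .refl _ _
  · rw [e, e', D.gr]
    exact Or.inr (by simp)

theorem el_inj (h : Qt π ε) : Injective (D.el nu π) := by
  rintro ⟨⟨l, t⟩, x⟩ ⟨⟨l', t'⟩, x'⟩ e
  obtain ⟨e1, e2, e3⟩ := h.mk_inj (pow_ne_zero _ D.g0) (pow_ne_zero _ D.g0) e
  obtain rfl : l = l' := ZMod.val_injective r (D.vg.inj _ l.val_lt _ l'.val_lt e1)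
  obtain rfl : x = x' := e2
  obtain rfl : t = t' := D.E.injective (add_right_cancel (add_right_cancel e3))
  rfl

omit [NeZero r] in
theorem el_rng (h : Qt π ε) (y : G) : y ∉ (Bor F).map π ↔ ∃ z, D.el nu π z = y := by
  refine ⟨fun hy => ?_, fun ⟨z, e⟩ => e ▸ h.mk_out (pow_ne_zero _ D.g0) _ _⟩
  obtain ⟨a, c, b, hc, rfl⟩ := h.out hy
  obtain ⟨l, hl, e⟩ := D.vg.sj c hc
  refine ⟨((l, D.E.symm (b - nu l - D.lam l * a)), a), ?_⟩
  rw [h.rl (pow_ne_zero _ D.g0) e, el]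
  simp [U, ZMod.val_cast_of_lt hl]

theorem tlev {l : ZMod r} {j j' : ℕ} {k : ℕ} (hj : j ≤ n) (hj' : j' ≤ n) (hk : l.val ≠ k)
    (e : Equiv.swap 0 (2 * j) l.val = Equiv.swap 0 (2 * j') k) : ∃ i ≤ n, l = (2 * i : ℕ) := by
  have key : ∀ i ≤ n, l.val = 2 * i → ∃ i ≤ n, l = (2 * i : ℕ) := fun i hi e =>
    ⟨i, hi, by rw [← e, ZMod.natCast_zmod_val]⟩
  simp only [Equiv.swap_apply_def] at e
  by_cases c0 : l.val = 0
  · exact key 0 (Nat.zero_le n) c0
  by_cases c1 : l.val = 2 * j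
  · exact key j hj c1
  refine key j' hj' ?_
  split_ifs at e <;> omega

theorem lab_inj (h : Qt π ε) (hnu : ∀ j ≤ n, nu (2 * j : ℕ) = 0) :
    Injective fun z => ld (D.el nu π z) (D.el nu π (D.Φ z)) := by
  rintro ⟨⟨l, t⟩, x⟩ ⟨⟨l', t'⟩, x'⟩ e
  simp only [D.step nu h] at e
  obtain ⟨e1, e2, e3⟩ := h.mk_inj (D.cc_ne _) (D.cc_ne _) e
  have e4 := D.vc.inj _ (D.sw_lt _) _ (D.sw_lt _) e1
  have e5 : D.cc ((l, t), x) = D.cc ((l', t'), x') := congrArg D.c e4
  rw [e5] at e2 e3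
  have u1 := neg_injective (add_right_cancel e2)
  have u2 := add_right_cancel e3
  have tl : ∀ {l : ZMod r}, (∃ i ≤ n, l = (2 * i : ℕ)) → ∀ t x, D.U nu ((l, t), x) = D.E t := by
    rintro _ ⟨i, hi, rfl⟩ t x
    simp [U, D.lb i hi, hnu i hi, -Nat.cast_mul]
  obtain rfl : l = l' := by
    by_contra c
    have c' : l.val ≠ l'.val := fun q => c (ZMod.val_injective r q)
    rw [tl (tlev (flo_le t) (flo_le t') c' e4), tl (tlev (flo_le t') (flo_le t) c'.symm e4.symm)]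
      at u1
    obtain rfl := D.E.injective u1
    exact c' ((Equiv.injective _) e4)
  have p1 := D.pos ((l, t), x)
  have p2 := D.pos ((l, t'), x')
  rw [e5] at p1
  have q1 : (D.Φ ((l, t), x)).1 = D.τ (D.Φ ((l, t), x)).2 (nx n (l, t)) := by rw [D.hΦ]
  have q2 : (D.Φ ((l, t'), x')).1 = D.τ (D.Φ ((l, t'), x')).2 (nx n (l, t')) := by rw [D.hΦ]
  have l1 := D.lev ((l, t), x)
  have l2 := D.lev ((l, t'), x')
  simp only [U, l1, l2, p1, p2] at u1 u2
  have nx1 : ∀ t : Option (ZMod N), (nx n (l, t)).1 = l + 1 := fun _ => rfl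
  have fin : t = t' → D.lam l ≠ 0 → (((l, t), x) : (ZMod r × Option (ZMod N)) × F) = ((l, t'), x') := by
    rintro rfl q
    rw [mul_left_cancel₀ q (add_left_cancel (add_right_cancel u1))]
  by_cases T : ∃ j ≤ n, l + 1 = (2 * j : ℕ)
  · obtain ⟨j, hj, T⟩ := T
    have a0 : D.lam (l + 1) = 0 := T ▸ D.lb j hj
    have a1 : D.lam l ≠ 0 := a0 ▸ D.la l
    have a2 : l.val ≠ 2 * n := fun q => a1 (by
      rw [← D.lb n le_rfl, ← q, ZMod.natCast_zmod_val])
    refine fin (by_contra fun c => ?_) a1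
    simp only [nx, if_neg a2] at q1 q2
    rw [a0, zero_mul, zero_mul] at u2
    have u3 : (D.Φ ((l, t), x)).1 = (D.Φ ((l, t'), x')).1 := Prod.ext (l1.trans l2.symm)
      (D.E.injective (add_right_cancel (add_right_cancel u2)))
    rw [q1, q2, p1, p2] at u3
    have pr : ∀ {y y' : F} {t t' : Option (ZMod N)}, t ≠ t' → D.τ y (l + 1, t) = D.τ y' (l + 1, t') →
        t = none ∨ t = some ((tm p n j : ℕ) : ZMod N) := fun {y y' t t'} c q => by
      have key : ∀ y, D.τ y (l + 1, t) = (l + 1, t) ∨ t = none ∨ t = some ((tm p n j : ℕ) : ZMod N) :=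
        fun y => (D.t3 y _).imp_right fun ⟨i, hi, q, _, q'⟩ => by
          have := congrArg ZMod.val (T.symm.trans q)
          have := D.hr
          rw [ZMod.val_cast_of_lt (by omega), ZMod.val_cast_of_lt (by omega)] at *
          obtain rfl : j = i := by omega
          exact q'
      rcases key y with k1 | k1
      · rcases key y' with k2 | k2
        · exact absurd (congrArg Prod.snd (D.t2 y' (k2.trans (k1.symm.trans q)))) c
        · exact k2
      · exact k1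
    have lc := D.lc j hj l T
    rcases pr c u3 with rfl | rfl <;> rcases pr (Ne.symm c) u3.symm with rfl | rfl
    · exact c rfl
    · obtain rfl : x = x' + D.e := mul_left_cancel₀ a1 (by linear_combination u1 - lc)
      rw [add_sub_right_comm, D.t1] at u3
      exact c (congrArg Prod.snd (D.t2 _ u3))
    · obtain rfl : x' = x + D.e := mul_left_cancel₀ a1 (by linear_combination -u1 - lc)
      rw [add_sub_right_comm, D.t1] at u3
      exact c (congrArg Prod.snd (D.t2 _ u3))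
    · exact c rfl
  · have fx : ∀ y t, D.τ y (nx n (l, t)) = nx n (l, t) := fun y t =>
      (D.t3 y _).resolve_right fun ⟨j, hj, q, _⟩ => T ⟨j, hj, q⟩
    rw [fx] at q1 q2
    rw [q1, q2] at u2
    have ne := sub_ne_zero.2 (D.la l)
    by_cases a2 : l.val = 2 * n
    · have a0 : D.lam l = 0 := by rw [← D.lb n le_rfl, ← a2, ZMod.natCast_zmod_val]
      rw [a0, zero_mul, zero_mul] at u1
      obtain rfl := D.E.injective (add_right_cancel (add_right_cancel u1))
      rw [sub_left_injective (mul_left_cancel₀ (a0 ▸ D.la l).symm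
        (add_left_cancel (add_right_cancel u2)))]
    · simp only [nx, if_neg a2] at u2
      obtain rfl : x = x' := mul_left_cancel₀ ne (by linear_combination u1 - u2)
      rw [D.E.injective (add_right_cancel (add_right_cancel u1))]

end Dat

end Pool.Agent.SQL
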