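import Mathlib

/-! The choice of the classes of the labels. -/

namespace Pool.Agent.SQL

open Function Finset Module Submodule

variable {F : Type*} [Field F] {ε : F} {r : ℕ} {c : ℕ → F}

/-- equality up to the factor `ε` -/
def Rl (ε a b : F) : Prop := a = b ∨ a = ε * b

theorem Rl.refl (ε a : F) : Rl ε a a := Or.inl rfl

theorem Rl.symm (h : ε * ε = 1) {a b : F} (e : Rl ε a b) : Rl ε b a :=
  e.imp Eq.symm fun e => by rw [e, ← mul_assoc, h, one_mul]

theorem Rl.trans (h : ε * ε = 1) {a b d : F} (e : Rl ε a b) (e' : Rl ε b d) : Rl ε a d := by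
  rcases e with rfl | rfl
  · exact e'
  · rcases e' with rfl | rfl
    · exact Or.inr rfl
    · exact Or.inl (by rw [← mul_assoc, h, one_mul])

theorem Rl.ne (h : ε * ε = 1) {a b : F} (e : Rl ε a b) (hb : b ≠ 0) : a ≠ 0 := by
  rcases e with rfl | rfl
  · exact hb
  · exact mul_ne_zero (left_ne_zero_of_mul_eq_one h) hb

/-- `c 0, ..., c (r - 1)` represent the classes of non-zero elements -/
structure Val (ε : F) (r : ℕ) (c : ℕ → F) : Prop where
  ne : ∀ l < r, c l ≠ 0
  inj : ∀ l < r, ∀ l' < r, Rl ε (c l) (c l') → l = l'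
  sj : ∀ y ≠ 0, ∃ l < r, Rl ε y (c l)

theorem Val.comp (h : Val ε r c) (κ : Equiv.Perm ℕ) (hκ : ∀ l, r ≤ l → κ l = l) :
    Val ε r (c ∘ κ) := by
  have h1 : ∀ l < r, κ l < r := fun l hl => not_le.1 fun e =>
    hl.not_ge (κ.injective (hκ _ e) ▸ e)
  refine ⟨fun l hl => h.ne _ (h1 l hl), fun l hl l' hl' e =>
    κ.injective (h.inj _ (h1 l hl) _ (h1 l' hl') e), fun y hy => ?_⟩
  obtain ⟨l, hl, e⟩ := h.sj y hy
  refine ⟨κ.symm l, not_le.1 fun e => ?_, by simpa using e⟩
  have := hκ _ e
  rw [Equiv.apply_symm_apply] at this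
  omega

theorem Val.congr (h2 : ε * ε = 1) (h : Val ε r c) {c' : ℕ → F} (e : ∀ l < r, Rl ε (c' l) (c l)) :
    Val ε r c' :=
  ⟨fun l hl => (e l hl).ne h2 (h.ne l hl), fun l hl l' hl' q => h.inj l hl l' hl'
    ((((e l hl).symm h2).trans h2 q).trans h2 (e l' hl')), fun y hy =>
      (h.sj y hy).imp fun l q => ⟨q.1, q.2.trans h2 ((e l q.1).symm h2)⟩⟩

theorem Val.set (h2 : ε * ε = 1) (h : Val ε r c) {l : ℕ} (hl : l < r) {y : F} (hy : y ≠ 0) :
    ∃ c', Val ε r c' ∧ c' l = y ∧ ∀ k, k ≠ l → ¬ Rl ε y (c k) → c' k = c k := by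
  obtain ⟨l', hl', e⟩ := h.sj y hy
  have h1 := h.comp (Equiv.swap l l') fun k hk =>
    Equiv.swap_apply_of_ne_of_ne (by omega) (by omega)
  refine ⟨update (c ∘ Equiv.swap l l') l y, h1.congr h2 fun k _ => ?_, update_self .., ?_⟩
  · by_cases q : k = l
    · subst q
      simpa using e
    · rw [update_of_ne q]
      exact .refl _ _
  · intro k hk q
    rw [update_of_ne hk, comp_apply, Equiv.swap_apply_of_ne_of_ne hk fun e' => q (e' ▸ e)]

theorem sum_swap (g w : ℕ → F) {a b m : ℕ} (ha : a < m) (hb : b < m) :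
    ∑ l ∈ range m, (g (Equiv.swap a b l) * w l - g l * w l) = (g b - g a) * (w a - w b) := by
  by_cases h : a = b
  · simp [h]
  rw [← sum_subset (s₁ := {a, b}) (by simp [insert_subset_iff, ha, hb]) fun l _ hl => by
    simp only [mem_insert, mem_singleton, not_or] at hl
    rw [Equiv.swap_apply_of_ne_of_ne hl.1 hl.2, sub_self], sum_pair h]
  simp only [Equiv.swap_apply_left, Equiv.swap_apply_right]
  ring

variable (K : Type*) [Field K] [Algebra K F] [Finite F]

/-- the change of the displacement -/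
def dd (c w : ℕ → F) (j : ℕ) : F := (c (2 * j) - c 0) * (w 0 - w (2 * j))

theorem card_sub (U : Submodule K F) : Nat.card U = Nat.card K ^ finrank K U :=
  Module.natCard_eq_pow_finrank

theorem greedy (h2 : ε * ε = 1) (h : Val ε r c) {n k : ℕ} (hr : 2 * n + 1 < r) (w : ℕ → F)
    (hw0 : w (r - 1) ≠ 0) (hw : ∀ j, 1 ≤ j → j ≤ n → w 0 ≠ w (2 * j)) (hk : ε = 1 ∨ 2 ≤ k)
    (hk1 : 1 ≤ k) (hc : 1 ≤ n → Nat.card K ^ n + k * (n + 1) < Nat.card F) {R : F} (R0 : R ≠ 0)
    (R1 : ¬ Rl ε R 1) (j : ℕ) (hj : j ≤ n) :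
    ∃ c, Val ε r c ∧ c 0 = R * c (r - 1) ∧ ∀ H : Submodule K F, c (r - 1) * w (r - 1) ∈ H →
      (∀ i, 1 ≤ i → i ≤ j → dd c w i ∈ H) → j + 1 ≤ finrank K H := by
  classical
  have : Finite K := Finite.of_injective _ (algebraMap K F).injective
  have := Fintype.ofFinite F
  induction j with
  | zero =>
    have h0 := h.ne (r - 1) (by omega)
    obtain ⟨c', v, e1, e2⟩ := h.set h2 (l := 0) (by omega) (mul_ne_zero R0 h0)
    have e3 := e2 (r - 1) (by omega) fun q => R1 (q.imp (fun q => by simpa [h0] using q)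
      fun q => by simpa [h0] using q)
    refine ⟨c', v, by rw [e1, e3], fun H hH _ => ?_⟩
    rw [zero_add, Nat.one_le_iff_ne_zero, Ne, finrank_eq_zero]
    rintro rfl
    exact mul_ne_zero (e3 ▸ h0) hw0 hH
  | succ j ih =>
    obtain ⟨c, v, e0, Q⟩ := ih (by omega)
    let U := span K ((insert (c (r - 1) * w (r - 1)) ((Icc 1 j).image (dd c w)) : Finset F) : Set F)
    have u1 : finrank K U ≤ j + 1 := (finrank_span_finset_le_card _).trans
      ((card_insert_le _ _).trans (by simpa using card_image_le (s := Icc 1 j) (f := dd c w)))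
    have u2 : c (r - 1) * w (r - 1) ∈ U := subset_span (by simp)
    have u3 : ∀ i, 1 ≤ i → i ≤ j → dd c w i ∈ U := fun i i1 i2 =>
      subset_span (by simp only [coe_insert, coe_image, coe_Icc]; exact Or.inr ⟨i, ⟨i1, i2⟩, rfl⟩)
    have wn := sub_ne_zero.2 (hw (j + 1) (by omega) hj)
    let A : Finset F := {y | (y - c 0) * (w 0 - w (2 * (j + 1))) ∈ U}
    have a1 : #A ≤ Nat.card K ^ n := by
      have : #A ≤ Nat.card U := by
        rw [← Nat.card_eq_finsetCard]
        exact Nat.card_le_card_of_injective (fun y : A => (⟨_, (mem_filter.1 y.2).2⟩ : U))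
          fun y y' e => Subtype.ext (sub_left_injective
            (mul_right_cancel₀ wn (congrArg Subtype.val e)))
      exact this.trans (card_sub K U ▸ Nat.pow_le_pow_right Nat.card_pos (u1.trans hj))
    let L : Finset ℕ := insert (r - 1) ((Icc 1 j).image (2 * ·))
    have l1 : #L ≤ j + 1 :=
      (card_insert_le _ _).trans (by simpa using card_image_le (s := Icc 1 j) (f := (2 * ·)))
    let B : Finset F := insert 0 ((if ε = 1 then ∅ else {ε * c 0}) ∪
      L.biUnion fun l => {c l, ε * c l})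
    have b1 : #B ≤ k * (n + 1) := by
      have b2 := card_biUnion_le_card_mul L (fun l => {c l, ε * c l}) k fun l _ => by
        rcases hk with rfl | hk
        · simpa using hk1
        · exact card_le_two.trans hk
      have b3 : #(if ε = 1 then ∅ else {ε * c 0} : Finset F) + 1 ≤ k := by
        split_ifs with q
        · simpa using hk1
        · simpa using hk.resolve_left q
      have b4 := card_union_le (if ε = 1 then ∅ else {ε * c 0} : Finset F)
        (L.biUnion fun l => {c l, ε * c l})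
      have b5 : #B ≤ _ := card_insert_le _ _
      nlinarith
    obtain ⟨y, -, hy⟩ := exists_mem_notMem_of_card_lt_card (s := A ∪ B) (t := univ) (by
      rw [card_univ, ← Nat.card_eq_fintype_card]
      have := card_union_le A B
      have := hc (by omega)
      omega)
    simp only [A, B, mem_union, mem_filter, mem_univ, true_and, mem_insert, mem_biUnion,
      mem_singleton, not_or, not_exists, not_and] at hy
    obtain ⟨y1, y2, y3, y4⟩ := hy
    obtain ⟨c', v', e1, e2⟩ := v.set h2 (l := 2 * (j + 1)) (by omega) y2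
    have y0 : y ≠ c 0 := fun q => y1 (by simp [q])
    have f0 : c' 0 = c 0 := e2 0 (by omega) fun q => q.elim y0 fun q => by
      split_ifs at y3 with q'
      · exact y0 (by rw [q, q', one_mul])
      · exact y3 (by simp [q])
    have fL : ∀ l ∈ L, l ≠ 2 * (j + 1) → c' l = c l := fun l hl q =>
      e2 l q fun q => q.elim (y4 l hl).1 (y4 l hl).2
    have f1 := fL (r - 1) (mem_insert_self _ _) (by omega)
    have f2 : ∀ i, 1 ≤ i → i ≤ j → dd c' w i = dd c w i := fun i i1 i2 => by
      rw [dd, dd, f0, fL (2 * i) (mem_insert_of_mem (mem_image_of_mem _ (by simp [i1, i2])))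
        (by omega)]
    refine ⟨c', v', by rw [f0, f1, e0], fun H H1 H2 => ?_⟩
    have le : U ≤ H := span_le.2 (by
      simp only [coe_insert, coe_image, coe_Icc]
      rintro _ (rfl | ⟨i, ⟨i1, i2⟩, rfl⟩)
      · exact f1 ▸ H1
      · exact f2 i i1 i2 ▸ H2 i i1 (by omega))
    have lt : U < H := lt_of_le_of_ne le fun q => y1 (by
      have := H2 (j + 1) (by omega) le_rfl
      rwa [dd, e1, f0, ← q] at this)
    exact Nat.succ_le_of_lt ((Q U u2 u3).trans_lt (finrank_lt_finrank_of_lt lt))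

theorem orth {U : Submodule K F} (hU : U < ⊤) (X : Finset F) {v v' : F} (h0 : v ≠ 0) (h1 : v' ≠ 0)
    (h2 : v ≠ v') (h : ∀ x ∈ X, x * v ∈ U ∧ x * v' ∈ U) : 3 * #X ≤ Nat.card F := by
  classical
  obtain ⟨φ, φ0, hφ⟩ := U.exists_le_ker_of_lt_top hU
  let B : LinearMap.BilinForm K F := (LinearMap.mul K F).compr₂ φ
  have nd : ∀ x : F, (∀ y, φ (x * y) = 0) → x = 0 := fun x hx => by_contra fun q =>
    φ0 (LinearMap.ext fun y => by simpa [q] using hx (x⁻¹ * y))
  have hB : B.Nondegenerate := ⟨nd, fun x hx => nd x fun y => mul_comm x y ▸ hx y⟩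
  let W := span K ({v, v'} : Set F)
  have w3 : 3 ≤ Nat.card W := by
    have : #({0, v, v'} : Finset F) = 3 := card_eq_three.2 ⟨_, _, _, h0.symm, h1.symm, h2, rfl⟩
    rw [← this, ← Nat.card_eq_finsetCard]
    refine Nat.card_le_card_of_injective (fun y => (⟨y.1, ?_⟩ : W)) fun y y' e =>
      Subtype.ext (Subtype.ext_iff.1 e :)
    have := y.2
    simp only [mem_insert, mem_singleton] at this
    rcases this with e | e | e <;> rw [e]
    · exact zero_mem _
    · exact subset_span (by simp)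
    · exact subset_span (by simp)
  have x1 : #X ≤ Nat.card (B.orthogonal W) := by
    rw [← Nat.card_eq_finsetCard]
    refine Nat.card_le_card_of_injective (fun y => (⟨y.1, fun u hu => ?_⟩ : B.orthogonal W))
      fun y y' e => Subtype.ext (Subtype.ext_iff.1 e :)
    obtain ⟨a, b, rfl⟩ := mem_span_pair.1 hu
    change φ ((a • v + b • v') * y.1) = 0
    rw [add_mul, smul_mul_assoc, smul_mul_assoc, mul_comm v, mul_comm v']
    exact hφ (add_mem (U.smul_mem _ (h _ y.2).1) (U.smul_mem _ (h _ y.2).2))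
  rw [card_sub K, LinearMap.BilinForm.finrank_orthogonal hB] at x1
  rw [card_sub K] at w3
  rw [Module.natCard_eq_pow_finrank (K := K), ← Nat.add_sub_cancel' (finrank_le W), pow_add]
  exact Nat.mul_le_mul w3 x1

theorem choose_c (h2 : ε * ε = 1) (h : Val ε r c) {n k : ℕ} (hn : finrank K F = n + 1)
    (hr : 2 * n + 1 < r) (w : ℕ → F) (hw0 : w (r - 1) ≠ 0)
    (hw : ∀ j, 1 ≤ j → j ≤ n → w 0 ≠ w (2 * j)) (hw' : ∀ l < r, ∀ l' < r, w l = w l' →
      c l = c l' ∨ c l = -c l') (hk : ε = 1 ∨ 2 ≤ k)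
    (hk1 : 1 ≤ k) (hc : 1 ≤ n → Nat.card K ^ n + k * (n + 1) < Nat.card F)
    (hm : ε = 1 → n + 5 ≤ r ∧ Nat.card F < 3 * (r - (n + 2))) {R : F} (R0 : R ≠ 0)
    (R1 : ¬ Rl ε R 1) :
    ∃ c, Val ε r c ∧ Rl ε (c 0) (R * c (r - 1)) ∧ ∑ l ∈ range r, c l * w l ≠ 0 ∧
      ∀ H : Submodule K F, ∑ l ∈ range r, c l * w l ∈ H →
        (∀ i, 1 ≤ i → i ≤ n → dd c w i ∈ H) → H = ⊤ := by
  classical
  obtain ⟨d, v, e0, Q⟩ := greedy K h2 h hr w hw0 hw hk hk1 hc R0 R1 n le_rfl
  let U := span K (((Icc 1 n).image (dd d w) : Finset F) : Set F)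
  have u1 : finrank K U ≤ n := (finrank_span_finset_le_card _).trans
    (by simpa using card_image_le (s := Icc 1 n) (f := dd d w))
  have u3 : ∀ i, 1 ≤ i → i ≤ n → dd d w i ∈ U := fun i i1 i2 =>
    subset_span (by simp only [coe_image, coe_Icc]; exact ⟨i, ⟨i1, i2⟩, rfl⟩)
  have u2 : d (r - 1) * w (r - 1) ∉ U := fun q => by
    have := Q U q u3
    omega
  have u4 : n ≤ finrank K U := by
    have q1 := Q (U ⊔ span K {d (r - 1) * w (r - 1)}) (mem_sup_right (mem_span_singleton_self _))
      fun i i1 i2 => mem_sup_left (u3 i i1 i2)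
    have q2 := finrank_add_le_finrank_add_finrank U (span K {d (r - 1) * w (r - 1)})
    rw [finrank_span_singleton (K := K) (v := d (r - 1) * w (r - 1)) fun q => u2 (by simp [q])] at q2
    omega
  suffices ∃ c, Val ε r c ∧ Rl ε (c 0) (R * c (r - 1)) ∧ (∀ i ≤ n, c (2 * i) = d (2 * i)) ∧
      ∑ l ∈ range r, c l * w l ∉ U by
    obtain ⟨c, v', e1, e2, e3⟩ := this
    refine ⟨c, v', e1, fun q => e3 (q ▸ zero_mem U), fun H H1 H2 => ?_⟩
    have le : U ≤ H := span_le.2 (by
      simp only [coe_image, coe_Icc]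
      rintro _ ⟨i, ⟨i1, i2⟩, rfl⟩
      have := H2 i i1 i2
      rwa [dd, e2 i i2, show c 0 = d 0 from e2 0 (Nat.zero_le n)] at this)
    have := finrank_lt_finrank_of_lt (lt_of_le_of_ne le fun q => e3 (q ▸ H1))
    exact eq_top_of_finrank_eq (le_antisymm (finrank_le H) (by omega))
  by_contra! A
  have A0 := A d v (Or.inl e0) fun _ _ => rfl
  by_cases he : ε = 1
  · let Fr : Finset ℕ := range r \ insert (r - 1) ((range (n + 1)).image (2 * ·))
    have fr : r - (n + 2) ≤ #Fr := by
      refine le_trans ?_ (le_card_sdiff _ _)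
      rw [card_range]
      exact Nat.sub_le_sub_left ((card_insert_le _ _).trans
        (by simpa using card_image_le (s := range (n + 1)) (f := (2 * ·)))) r
    have mr : ∀ l ∈ Fr, l < r := fun l hl => mem_range.1 (mem_sdiff.1 hl).1
    have A1 : ∀ κ : Equiv.Perm ℕ, (∀ l ∉ Fr, κ l = l) → ∑ l ∈ range r, d (κ l) * w l ∈ U :=
      fun κ hκ => by
        have q : ∀ i ≤ n, κ (2 * i) = 2 * i := fun i hi => hκ _ fun q => (mem_sdiff.1 q).2
          (mem_insert_of_mem (mem_image_of_mem _ (mem_range.2 (by omega))))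
        refine A (d ∘ κ) (v.comp κ fun l hl => hκ l fun q => (mr l q).not_ge hl) (Or.inl ?_)
          fun i hi => congrArg d (q i hi)
        rw [comp_apply, comp_apply, show κ 0 = 0 from q 0 (Nat.zero_le n),
          hκ _ fun q => (mem_sdiff.1 q).2 (mem_insert_self _ _), e0]
    have sw : ∀ a ∈ Fr, ∀ b ∈ Fr, ∀ l ∉ Fr, Equiv.swap a b l = l := fun a ha b hb l hl =>
      Equiv.swap_apply_of_ne_of_ne (fun q => hl (q ▸ ha)) fun q => hl (q ▸ hb)
    have A2 : ∀ a ∈ Fr, ∀ b ∈ Fr, ∀ x ∈ Fr, ∀ y ∈ Fr, (d y - d x) * (w a - w b) ∈ U := by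
      intro a ha b hb x hx y hy
      by_cases q1 : a = b
      · simp [q1]
      by_cases q2 : x = y
      · simp [q2]
      have hb' : Equiv.swap a x b ∈ Fr := by
        rw [Equiv.swap_apply_def]
        split_ifs <;> assumption
      let κ := Equiv.swap (Equiv.swap a x b) y * Equiv.swap a x
      have k0 : ∀ l ∉ Fr, κ l = l := fun l hl => by
        rw [Equiv.Perm.mul_apply, sw a ha x hx l hl, sw _ hb' y hy l hl]
      have k1 : κ a = x := by
        rw [Equiv.Perm.mul_apply, Equiv.swap_apply_left]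
        exact Equiv.swap_apply_of_ne_of_ne (fun q => q1 ((Equiv.swap a x).injective
          ((Equiv.swap_apply_left a x).trans q))) q2
      have k2 : κ b = y := by rw [Equiv.Perm.mul_apply, Equiv.swap_apply_left]
      have := sub_mem (A1 (κ * Equiv.swap a b) fun l hl => by
        rw [Equiv.Perm.mul_apply, sw a ha b hb l hl, k0 l hl]) (A1 κ k0)
      rw [← sum_sub_distrib] at this
      have e := sum_swap (d ∘ κ) w (mr a ha) (mr b hb)
      rw [comp_apply, comp_apply, k1, k2] at e
      exact e ▸ this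
    obtain ⟨a, b, x, ha, hb, hx, n1, n2, n3⟩ := two_lt_card_iff.1 (show 2 < #Fr by
      have := (hm he).1
      omega)
    have di : ∀ l < r, ∀ l' < r, c l = c l' → l = l' := fun l hl l' hl' q =>
      h.inj l hl l' hl' (Or.inl q)
    obtain ⟨z, z', z0, z1, z2, z3⟩ : ∃ z z' : F, z ≠ 0 ∧ z' ≠ 0 ∧ z ≠ z' ∧
        ∀ y ∈ Fr, (d y - d x) * z ∈ U ∧ (d y - d x) * z' ∈ U := by
      by_cases t : (-1 : F) = 1
      · have wi : ∀ l ∈ Fr, ∀ l' ∈ Fr, w l = w l' → l = l' := fun l hl l' hl' q =>
          di l (mr l hl) l' (mr l' hl') ((hw' l (mr l hl) l' (mr l' hl') q).elim id fun q => by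
            rw [q, neg_eq_neg_one_mul, t, one_mul])
        exact ⟨w a - w x, w b - w x, sub_ne_zero.2 fun q => n2 (wi a ha x hx q),
          sub_ne_zero.2 fun q => n3 (wi b hb x hx q), fun q => n1 (wi a ha b hb (sub_left_injective q)),
          fun y hy => ⟨A2 a ha x hx x hx y hy, A2 b hb x hx x hx y hy⟩⟩
      · obtain ⟨l, hl, q⟩ : ∃ l ∈ Fr, w l ≠ w x := by
          by_contra! q
          have q1 := (hw' a (mr a ha) x (mr x hx) (q a ha)).resolve_left
            fun q => n2 (di a (mr a ha) x (mr x hx) q)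
          have q2 := (hw' b (mr b hb) x (mr x hx) (q b hb)).resolve_left
            fun q => n3 (di b (mr b hb) x (mr x hx) q)
          exact n1 (di a (mr a ha) b (mr b hb) (q1.trans q2.symm))
        refine ⟨w l - w x, w x - w l, sub_ne_zero.2 q, sub_ne_zero.2 q.symm, fun e => t ?_,
          fun y hy => ⟨A2 l hl x hx x hx y hy, A2 x hx l hl x hx y hy⟩⟩
        exact mul_right_cancel₀ (sub_ne_zero.2 q) (by linear_combination -e)
    have := orth K (U := U) (lt_top_iff_ne_top.2 fun q => u2 (q ▸ mem_top))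
      (Fr.image fun y => d y - d x) z0 z1 z2 fun u hu => by
        obtain ⟨y, hy, rfl⟩ := mem_image.1 hu
        exact z3 y hy
    rw [card_image_of_injOn fun y hy y' hy' q => v.inj y (mr y hy) y' (mr y' hy')
      (Or.inl (sub_left_injective q))] at this
    have := (hm he).2
    omega
  · have e1 : ε = -1 := (mul_self_eq_one_iff.1 h2).resolve_left he
    have A1 := A (update d (r - 1) (ε * d (r - 1))) (v.congr h2 fun l _ => by
        by_cases q : l = r - 1
        · subst q
          exact Or.inr (update_self ..)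
        · exact Or.inl (update_of_ne q ..))
      (Or.inr (by
        rw [update_self, update_of_ne (by omega), e0]
        linear_combination (-R * d (r - 1)) * h2))
      fun i hi => update_of_ne (by omega) ..
    have A2 := sub_mem A0 A1
    rw [← sum_sub_distrib, sum_eq_single_of_mem (r - 1) (mem_range.2 (by omega))
      fun l _ q => by rw [update_of_ne q, sub_self], update_self] at A2
    have t : (2 : K) ≠ 0 := fun q => he (by
      have := congrArg (algebraMap K F) q
      rw [map_ofNat, map_zero] at this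
      linear_combination e1 - this)
    refine u2 ((U.smul_mem_iff t).1 ?_)
    convert A2 using 1
    rw [two_smul, e1]
    ring

end Pool.Agent.SQL
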