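import Pool.Agent.MP_f56020_al.L2.Cell
import Pool.Agent.MP_f56020_al.L2.Asm

/-! The two linking arcs and the theorem. -/

namespace Pool.Agent.SQL

open Function Finset Matrix MatrixGroups Pool.Agent.SQ

variable {F : Type*} [Field F] {G : Type*} [Group G] {π : SL(2, F) →* G} {ε : F}

theorem Dat.star {p n r N : ℕ} [NeZero r] (D : Dat ε p n r N) (nu : ZMod r → F) (h : Qt π ε)
    {m : SL(2, F)} (hm : m ∈ Bor F) (a c : (ZMod r × Option (ZMod N)) × F)
    (h1 : D.U nu a = D.U nu c + D.g / D.cc a)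
    (h2 : D.U nu (D.Φ a) = D.U nu (D.Φ c) + (D.g * D.cc c)⁻¹)
    (h3 : Rl ε (-(D.g ^ c.1.1.val * D.cc c) / (D.cc a * mt m 0 0)) (D.g ^ (D.Φ a).1.1.val))
    (h4 : (D.Φ a).2 = c.2 + (D.cc a / D.g ^ c.1.1.val) ^ 2 * (D.U nu (D.Φ a) + (D.g * D.cc a)⁻¹ +
      mt m 0 0 * mt m 0 1 + mt m 0 0 ^ 2 * (-D.U nu c + D.g / D.cc c))) :
    D.el nu π c * ld (D.el nu π a) (D.el nu π (D.Φ a)) ∈ (Bor F).map π ∧
      D.el nu π (D.Φ a) = D.el nu π c * ld (D.el nu π a) (D.el nu π (D.Φ a)) * π m *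
        ld (D.el nu π c) (D.el nu π (D.Φ c)) := by
  have e : -D.U nu a + D.g / D.cc a = -D.U nu c := by rw [h1]; ring
  rw [D.step nu h a, D.step nu h c, e, Dat.el, Dat.el, ← map_mul, ← map_mul, ← map_mul, h.mem,
    cel_star (pow_ne_zero _ D.g0) (D.cc_ne a) (D.cc_ne c) hm, ← h4, ← h2]
  exact ⟨cel_Bor (pow_ne_zero _ D.g0) (D.cc_ne a) _ _ _, (h.rl (pow_ne_zero _ D.g0) h3 _ _).symm⟩

theorem Dat.sg [Finite F] [Finite G] {p n r N : ℕ} [NeZero r] [NeZero N] (D : Dat ε p n r N)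
    (h : Qt π ε) (r3 : 3 ≤ r) (hΦ : Injective D.Φ) {O : Set ((ZMod r × Option (ZMod N)) × F)}
    (c1 : Cyc D.Φ O) (c2 : Cyc D.Φ Oᶜ) (z0 : ((0, none), 0) ∈ O) (hO : ∀ z ∈ O, z.1.2 = none)
    {x y : (Bor F).map π} {V : Multiset ((Bor F).map π)} (P : Pth ld x y V (st (· ≠ 1)))
    (hV : {x} + V = al _) {m : SL(2, F)} (hm : m ∈ Bor F) (em : π m = (x⁻¹ * y : (Bor F).map π))
    (hR : Rl ε (D.c 0) (-mt m 0 0 * D.c (r - 1)) ∨
      (Rl ε (-mt m 0 0) 1 ∧ Rl ε (D.c 0) ((D.g ^ 2)⁻¹ * D.c (r - 1)))) : SG G := by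
  classical
  have hr := D.hr
  have θ0 := (Bor_diag hm).1
  have g0 := D.g0
  have k0 := D.vc.ne 0 (by omega)
  have k1 := D.vc.ne (r - 1) (by omega)
  have vm : (-1 : ZMod r).val = r - 1 := by
    rcases val_succ (-1 : ZMod r) with ⟨e, -⟩ | ⟨-, e⟩
    · simp at e
    · omega
  have v1 : (1 : ZMod r).val = 1 := by simpa using ZMod.val_cast_of_lt (show 1 < r by omega)
  have n1 : (1 : ZMod r) ≠ -1 := fun e => by
    have := congrArg ZMod.val e
    omega
  let nu : F → F → ZMod r → F := fun α β l => if l = -1 then α else if l = 1 then β else 0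
  have hnu : ∀ α β, ∀ j ≤ n, nu α β (2 * j : ℕ) = 0 := fun α β j hj => by
    have v2 : ((2 * j : ℕ) : ZMod r).val = 2 * j := ZMod.val_cast_of_lt (by omega)
    simp only [nu]
    rw [if_neg, if_neg] <;> intro e <;> rw [e] at v2 <;> omega
  have U0 : ∀ α β t ξ, D.U (nu α β) ((0, t), ξ) = D.E t := fun α β t ξ => by
    have e1 := D.lb 0 (Nat.zero_le n)
    have e2 := hnu α β 0 (Nat.zero_le n)
    simp only [mul_zero, Nat.cast_zero] at e1 e2
    simp [Dat.U, e1, e2]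
  have cc0 : D.cc ((0, none), 0) = D.c 0 := by simp [Dat.cc, flo]
  have l0 : (D.Φ ((0, none), 0)).1.1 = 1 := by rw [D.lev, zero_add]
  have U1 : ∀ α β, D.U (nu α β) (D.Φ ((0, none), 0)) = D.E (D.Φ ((0, none), 0)).1.2 +
      D.lam 1 * (D.Φ ((0, none), 0)).2 + β := fun α β => by simp [Dat.U, l0, nu, n1]
  have pre : ∀ ξ : F, ∃ z, D.Φ z = ((0, some 0), ξ) ∧ z ∈ Oᶜ ∧ z.1.1.val = r - 1 ∧
      D.cc z = D.c (r - 1) ∧ ∀ α β, D.U (nu α β) z = D.E z.1.2 + D.lam (-1) * z.2 + α := fun ξ => by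
    obtain ⟨z, hz⟩ := Finite.surjective_of_injective hΦ ((0, some 0), ξ)
    have e1 : z.1.1 = -1 := eq_neg_of_add_eq_zero_left (by rw [← D.lev, hz])
    refine ⟨z, hz, fun q => ?_, e1 ▸ vm, ?_, fun α β => by simp [Dat.U, nu, e1]⟩
    · simpa [hz] using hO _ (c1.inv z q)
    · have := flo_le (p := p) (n := n) z.1.2
      rw [Dat.cc, e1, vm, Equiv.swap_apply_of_ne_of_ne (by omega) (by omega)]
  have fin : ∀ α β (O O' : Set ((ZMod r × Option (ZMod N)) × F)) a c, Cyc D.Φ O → Cyc D.Φ O' →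
      (∀ z, z ∈ O' ↔ z ∉ O) → a ∈ O → c ∈ O' → _ → _ → _ → _ → SG G :=
    fun α β O O' a c c1 c2 oo ha hc h1 h2 h3 h4 => by
      obtain ⟨s1, s2⟩ := D.star (nu α β) h hm a c h1 h2 h3 h4
      refine asm _ P hV hΦ _ (D.el_inj _ h) (D.el_rng _ h) (D.lab_inj _ h (hnu α β)) (fun z => ?_)
        c1 c2 oo ha hc s1 (em ▸ s2)
      rw [D.step _ h]
      exact h.mk_out (D.cc_ne z) _ _
  rcases hR with hR | ⟨hθ, hR⟩
  · obtain ⟨a, a1, a2, a3, a4, a5⟩ := pre (D.c (r - 1) ^ 2 * (D.E (some 0) + (D.g * D.c (r - 1))⁻¹ +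
      mt m 0 0 * mt m 0 1 + mt m 0 0 ^ 2 * (-D.E none + D.g / D.c 0)))
    refine fin (D.E none + D.g / D.c (r - 1) - D.E a.1.2 - D.lam (-1) * a.2)
      (D.E (some 0) - (D.g * D.c 0)⁻¹ - D.E (D.Φ ((0, none), 0)).1.2 -
        D.lam 1 * (D.Φ ((0, none), 0)).2) Oᶜ O a ((0, none), 0) c2 c1 (by simp) a2 z0 ?_ ?_ ?_ ?_
    · rw [a5, U0, a4]
      ring
    · rw [a1, U0, U1, cc0]
      ring
    · rw [a1, a4, cc0]
      refine hR.imp (fun e => ?_) fun e => ?_ <;> simp only [e, ZMod.val_zero] <;> field_simp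
    · rw [a1, U0, U0, a4, cc0]
      simp
  · have gr : D.g ^ (r - 1) * D.g = ε := by rw [← pow_succ, Nat.sub_add_cancel (by omega), D.gr]
    obtain ⟨c, a1, a2, a3, a4, a5⟩ := pre (-(D.c 0 / D.g) +
      D.c (r - 1) * -(D.g * (D.g ^ (r - 1)) ^ 2)⁻¹ - (D.c 0 / D.g ^ (r - 1)) ^ 2 *
        (D.E (some 0) + (D.g * D.c (r - 1))⁻¹ + (D.g * D.c 0)⁻¹ + mt m 0 0 * mt m 0 1 +
          mt m 0 0 ^ 2 * (-(D.E none - D.g / D.c 0) + D.g / D.c (r - 1))))
    have a6 := D.pos c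
    rw [a1, a3, a4] at a6
    refine fin (D.E none - D.g / D.c 0 - D.E c.1.2 - D.lam (-1) * c.2)
      (D.E (some 0) + (D.g * D.c (r - 1))⁻¹ - D.E (D.Φ ((0, none), 0)).1.2 -
        D.lam 1 * (D.Φ ((0, none), 0)).2) O Oᶜ ((0, none), 0) c c1 c2 (by simp) z0 a2 ?_ ?_ ?_ ?_
    · rw [a5, U0, cc0]
      ring
    · rw [a1, U0, U1, a4]
      ring
    · rw [a3, a4, cc0, l0, v1, pow_one]
      have sq := h.sq
      have ε0 := h.ne
      have e1 : D.g ^ (r - 1) = ε / D.g := eq_div_of_mul_eq g0 gr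
      have e2 : mt m 0 0 = -1 ∨ mt m 0 0 = -ε := hθ.imp (fun e => by linear_combination -e)
        fun e => by linear_combination -e
      rw [e1]
      rcases hR with e | e <;> rcases e2 with e2 | e2 <;> rw [e, e2]
      · exact Or.inr (by field_simp)
      · exact Or.inl (by field_simp)
      · exact Or.inl (by field_simp)
      · exact Or.inr (by field_simp; linear_combination -sq)
    · rw [U1, a5, a3, a4, cc0, D.pos, cc0]
      simp only [ZMod.val_zero, pow_zero, one_pow, mul_one, div_eq_mul_inv] at a6 ⊢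
      linear_combination a6

theorem core [Finite F] [Finite G] (h : Qt π ε) (h7 : 7 ≤ Nat.card F) : SG G := by
  classical
  obtain ⟨p, hp⟩ := CharP.exists F
  have pp : Fact p.Prime := ⟨CharP.char_is_prime F p⟩
  let _ := ZMod.algebra F p
  obtain ⟨n, hn⟩ := Nat.exists_eq_succ_of_ne_zero (Module.finrank_pos (R := ZMod p) (M := F)).ne'
  have hq : Nat.card F = p ^ (n + 1) := by
    rw [Module.natCard_eq_pow_finrank (K := ZMod p), Nat.card_zmod, hn]
  obtain ⟨g, r, g0, vg, gr, kr, og⟩ := levels h.sq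
  have p2 : p = 2 → (-1 : F) = 1 := by
    rintro rfl
    exact CharTwo.neg_eq 1
  obtain ⟨b1, b2, b3, b4, b5, b6⟩ := nums pp.out.two_le hq h7 kr (by
    split_ifs with q
    · exact Or.inl rfl
    · exact Or.inr ⟨rfl, fun e => q (((mul_self_eq_one_iff.1 h.sq).resolve_left q).trans (p2 e))⟩)
  have gi : ∀ i, 0 < i → i < r → ¬ Rl ε (g ^ i) 1 := fun i i0 ir e =>
    i0.ne' (vg.inj i ir 0 (by omega) (by simpa using e))
  obtain ⟨x, y, V, P, hV⟩ := h.sg h7 g0 (fun e => gi 1 one_pos (by omega) (Or.inl (by simp [e])))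
    (fun e => gi 1 one_pos (by omega) (Or.inr (by simp [e])))
    fun e => gi 2 two_pos (by omega) (Or.inl (by rw [sq, e]))
  obtain ⟨m, hm, em⟩ := (x⁻¹ * y).2
  have θ0 := (Bor_diag hm).1
  let w : ℕ → F := fun l => -(g * (g ^ l) ^ 2)⁻¹
  have ww : ∀ l l', w l = w l' → g ^ l = g ^ l' ∨ g ^ l = -g ^ l' := fun l l' e =>
    sq_eq_sq_iff_eq_or_eq_neg.1 (mul_left_cancel₀ g0 (inv_injective (neg_injective e)))
  obtain ⟨c, vc, c1, c2, c3⟩ := choose_c (ZMod p) h.sq vg hn b1 w (by simp [w, g0])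
    (fun j j1 j2 e => by
      have e1 := ww _ _ e.symm
      rw [pow_zero] at e1
      by_cases q : p = 2
      · rw [p2 q, or_self] at e1
        exact gi _ (by omega) (by omega) (Or.inl e1)
      · have := Nat.le_of_dvd (by omega) (og (2 * j * 2) (by
          rw [pow_mul]
          exact sq_eq_one_iff.2 e1))
        have := b6 q
        omega)
    (fun l _ l' _ => ww l l') (k := if ε = 1 then 1 else 2) (by split_ifs with q <;> simp [q])
    (by split_ifs <;> simp) (by rwa [Nat.card_zmod]) (fun q => b5 (if_pos q))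
    (R := if Rl ε (-mt m 0 0) 1 then (g ^ 2)⁻¹ else -mt m 0 0) (by split_ifs <;> simp [g0, θ0])
    (by
      split_ifs with q
      · refine fun e => gi 2 two_pos (by omega) (e.imp (fun e => inv_eq_one.1 e) fun e => ?_)
        rw [mul_one] at e ⊢
        rw [← inv_inv (g ^ 2), e]
        exact (eq_inv_of_mul_eq_one_right h.sq).symm
      · exact q)
  have : NeZero r := ⟨by omega⟩
  have : NeZero (Nat.card F - 1) := ⟨by omega⟩
  obtain ⟨τ, t1, t2, t3, Φ, f1, f2, O, o1, o2, o3, o4⟩ := base (p := p) (n := n) (r := r)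
    (N := Nat.card F - 1) pp.out.one_le (fun x : F => by simp) b3
    (by rw [Nat.sub_add_cancel (by omega), hq]; exact dvd_pow_self p (by omega)) b1
    (fun l j => c (Equiv.swap 0 (2 * j) l) * w l)
    (fun l j hj hl => by
      rw [Equiv.swap_apply_of_ne_of_ne (by omega) (by omega)]
      simp)
    (∑ l ∈ range r, c l * w l) (by simp)
    (fun H H1 H2 => by
      have := c3 (AddSubgroup.toZModSubmodule p H) H1 fun i i1 i2 => by
        have := H2 i i1 i2
        simp only [mul_zero, Equiv.swap_self, Equiv.refl_apply] at this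
        rwa [sum_swap c w (by omega) (by omega)] at this
      exact eq_top_iff.2 fun x _ => (this ▸ Submodule.mem_top : x ∈ AddSubgroup.toZModSubmodule p H))
  obtain ⟨E⟩ : Nonempty (Option (ZMod (Nat.card F - 1)) ≃ F) := Finite.card_eq.1 (by
    rw [Finite.card_option, Nat.card_zmod]
    omega)
  obtain ⟨lam, la, lb, lc⟩ := slopes b1 h7 (fun j => (E (some (tm p n j : ZMod _)) - E none) /
    ∑ l ∈ range r, c l * w l) fun j => div_ne_zero (sub_ne_zero.2 (by simp)) c2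
  refine Dat.sg ⟨g, c, _, E, lam, τ, Φ, b1, g0, vg, gr, vc, la, lb, fun j hj l hl => by
    rw [lc j hj l hl, div_mul_cancel₀ _ c2], t1, t2, t3, f1⟩ h b2 f2 o1 o2 o3 o4 P hV hm em ?_
  split_ifs at c1 with q
  · exact Or.inr ⟨q, c1⟩
  · exact Or.inl c1

theorem sg_sl [Finite F] (h7 : 7 ≤ Nat.card F) : SG SL(2, F) :=
  core (π := MonoidHom.id _) (ε := 1) ⟨mul_one 1, surjective_id, fun m m' =>
    ⟨Or.inl, fun h => h.elim id fun h => mt_ext (by simpa using h)⟩⟩ h7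

theorem sg_psl [Finite F] (h7 : 7 ≤ Nat.card F) : SG PSL(2, F) := by
  refine core (π := QuotientGroup.mk' _) (ε := -1) ⟨by simp, QuotientGroup.mk'_surjective _,
    fun m m' => ?_⟩ h7
  rw [QuotientGroup.mk'_apply, QuotientGroup.mk'_apply, QuotientGroup.eq,
    Matrix.SpecialLinearGroup.mem_center_iff]
  have e : ∀ z : F, (scalar (Fin 2) z = mt (m⁻¹ * m')) ↔ mt m' = z • mt m := fun z => by
    have h1 : mt m * mt (m⁻¹ * m') = mt m' := by rw [← mt_mul, mul_inv_cancel_left]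
    have h2 : mt m⁻¹ * mt m = 1 := by rw [← mt_mul, inv_mul_cancel, mt_one]
    constructor
    · intro q
      rw [← h1, ← q, scalar_apply, ← smul_one_eq_diagonal, mul_smul_comm, mul_one]
    · intro q
      rw [mt_mul, q, mul_smul_comm, h2, scalar_apply, smul_one_eq_diagonal]
  constructor
  · rintro ⟨z, z1, z2⟩
    rw [Fintype.card_fin, sq_eq_one_iff] at z1
    have := (e z).1 z2
    rcases z1 with rfl | rfl
    · exact Or.inl (mt_ext (by simp [this]))
    · exact Or.inr (by simp [this])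
  · rintro (rfl | q)
    · exact ⟨1, by simp, (e 1).2 (by simp)⟩
    · exact ⟨-1, by simp, (e _).2 (by simp [q])⟩

end Pool.Agent.SQL
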