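import Mathlib

/-! Cycles of an injective map of a finite type; merging cycles along a tree. -/

namespace Pool.Agent.SQL

open Function Finset

variable {X : Type*} {f g : X → X} {O O' : Set X} {x y z a b : X}

/-- `y` is on the forward orbit of `x` -/
def Rch (f : X → X) (x y : X) : Prop := ∃ k : ℕ, f^[k] x = y

theorem Rch.refl (f : X → X) (x : X) : Rch f x x := ⟨0, rfl⟩

theorem Rch.one (f : X → X) (x : X) : Rch f x (f x) := ⟨1, rfl⟩

theorem Rch.trans (h : Rch f x y) (h' : Rch f y z) : Rch f x z := by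
  obtain ⟨k, rfl⟩ := h
  obtain ⟨l, rfl⟩ := h'
  exact ⟨l + k, iterate_add_apply _ _ _ _⟩

theorem per_pos [Finite X] (hf : Injective f) (x : X) : 0 < minimalPeriod f x :=
  minimalPeriod_pos_of_mem_periodicPts (hf.mem_periodicPts x)

theorem Rch.symm [Finite X] (hf : Injective f) (h : Rch f x y) : Rch f y x := by
  obtain ⟨k, rfl⟩ := h
  have h1 := per_pos hf x
  refine ⟨k * minimalPeriod f x - k, ?_⟩
  rw [← iterate_add_apply, Nat.sub_add_cancel (Nat.le_mul_of_pos_right k h1)]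
  exact (isPeriodicPt_minimalPeriod f x).const_mul k

/-- `O` is one cycle of `f` -/
structure Cyc (f : X → X) (O : Set X) : Prop where
  inv : ∀ x ∈ O, f x ∈ O
  con : ∀ x ∈ O, ∀ y ∈ O, Rch f x y

theorem Cyc.iter (h : Cyc f O) (hx : x ∈ O) (k : ℕ) : f^[k] x ∈ O := by
  induction k with
  | zero => exact hx
  | succ k ih => rw [iterate_succ_apply']; exact h.inv _ ih

theorem Cyc.of_to [Finite X] (hf : Injective f) (hi : ∀ x ∈ O, f x ∈ O) (b : X)
    (h : ∀ x ∈ O, Rch f x b) : Cyc f O :=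
  ⟨hi, fun x hx y hy => (h x hx).trans ((h y hy).symm hf)⟩

theorem Cyc.congr (h : Cyc f O) (e : ∀ x ∈ O, g x = f x) : Cyc g O := by
  refine ⟨fun x hx => e x hx ▸ h.inv x hx, fun x hx y hy => ?_⟩
  obtain ⟨k, rfl⟩ := h.con x hx y hy
  refine ⟨k, ?_⟩
  clear hy
  induction k with
  | zero => rfl
  | succ k ih => rw [iterate_succ_apply', iterate_succ_apply', ih, e _ (h.iter hx k)]

theorem Cyc.sum [Finite X] {M : Type*} [AddCommMonoid M] (hf : Injective f) (h : Cyc f O)
    (hz : z ∈ O) (s : Finset X) (hs : ∀ x, x ∈ s ↔ x ∈ O) (w : X → M) :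
    ∑ i ∈ range (minimalPeriod f z), w (f^[i] z) = ∑ x ∈ s, w x := by
  refine sum_bij (fun i _ => f^[i] z) (fun i _ => (hs _).2 (h.iter hz i))
    (fun i hi j hj e => iterate_injOn_Iio_minimalPeriod (by simpa using hi) (by simpa using hj) e)
    (fun y hy => ?_) fun _ _ => rfl
  obtain ⟨k, rfl⟩ := h.con z hz y ((hs y).1 hy)
  exact ⟨k % minimalPeriod f z, mem_range.2 (Nat.mod_lt _ (per_pos hf z)),
    iterate_mod_minimalPeriod_eq⟩

section
variable [DecidableEq X]

theorem Cyc.hit (h : Cyc f O) (ha : a ∈ O) (hb : b ∉ O) (hx : x ∈ O) :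
    Rch (Equiv.swap a b ∘ f) x b := by
  obtain ⟨k, hk⟩ := h.con _ (h.inv x hx) a ha
  induction k generalizing x with
  | zero => exact ⟨1, by simp [show f x = a from hk]⟩
  | succ k ih =>
    by_cases c : f x = a
    · exact ⟨1, by simp [c]⟩
    · have e : (Equiv.swap a b ∘ f) x = f x :=
        Equiv.swap_apply_of_ne_of_ne c fun e => hb (e ▸ h.inv x hx)
      exact Rch.trans ⟨1, e⟩ (ih (h.inv x hx) hk)

theorem Cyc.merge [Finite X] (hf : Injective f) (h : Cyc f O) (h' : Cyc f O') (ha : a ∈ O)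
    (ha' : a ∉ O') (hb : b ∉ O) (hb' : b ∈ O') : Cyc (Equiv.swap a b ∘ f) (O ∪ O') := by
  refine .of_to ((Equiv.injective _).comp hf) (fun x hx => ?_) b fun x hx => ?_
  · have h1 : f x ∈ O ∪ O' := hx.imp (h.inv x) (h'.inv x)
    rw [comp_apply, Equiv.swap_apply_def]
    split_ifs
    · exact Or.inr hb'
    · exact Or.inl ha
    · exact h1
  · rcases hx with hx | hx
    · exact h.hit ha hb hx
    · have := h'.hit hb' ha' hx
      rw [Equiv.swap_comm] at this
      exact this.trans (h.hit ha hb ha)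

end

theorem tree [Finite X] {κ : Type*} (hf : Injective f) (cp : X → κ)
    (hc : ∀ c, Cyc f {x | cp x = c}) (c₀ : κ) (a b : κ → X) (par : κ → κ) (ht : κ → ℕ)
    (N : Finset κ) (h0 : c₀ ∉ N) (ha : ∀ c ∈ N, cp (a c) = c) (hb : ∀ c ∈ N, cp (b c) = par c)
    (hp : ∀ c ∈ N, par c = c₀ ∨ (par c ∈ N ∧ ht (par c) < ht c))
    (hi : ∀ c ∈ N, ∀ c' ∈ N, b c = b c' → c = c') (hab : ∀ c ∈ N, ∀ c' ∈ N, a c ≠ b c') :
    ∃ τ : Equiv.Perm X, (∀ z, τ z = z ∨ ∃ c ∈ N, (z = a c ∧ τ z = b c) ∨ (z = b c ∧ τ z = a c)) ∧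
      Cyc (τ ∘ f) {x | cp x = c₀ ∨ cp x ∈ N} := by
  classical
  induction N using Finset.induction_on_max_value ht with
  | empty => exact ⟨1, fun z => Or.inl rfl, by simpa using hc c₀⟩
  | insert c N hcN hmax ih =>
    have m : ∀ d ∈ N, d ∈ insert c N := fun d => mem_insert_of_mem
    have mc := mem_insert_self c N
    have hp' : ∀ d ∈ insert c N, par d = c₀ ∨ (par d ∈ N ∧ ht (par d) < ht d) := fun d hd =>
      (hp d hd).imp_right fun h => ⟨(mem_insert.1 h.1).resolve_left fun e => by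
        rcases mem_insert.1 hd with rfl | hd
        · rw [e] at h
          exact lt_irrefl _ h.2
        · exact (hmax d hd).not_gt (e ▸ h.2), h.2⟩
    obtain ⟨τ, t1, t2⟩ := ih (fun h => h0 (m _ h)) (fun d hd => ha d (m d hd))
      (fun d hd => hb d (m d hd)) (fun d hd => hp' d (m d hd))
      (fun d hd d' hd' => hi d (m d hd) d' (m d' hd')) fun d hd d' hd' => hab d (m d hd) d' (m d' hd')
    have c0 : c ≠ c₀ := fun e => h0 (e ▸ mc)
    have np : ∀ d ∈ insert c N, par d ≠ c := fun d hd e =>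
      (hp' d hd).elim (fun h => c0 (e.symm.trans h)) fun h => hcN (e ▸ h.1)
    have fx : ∀ z, cp z = c → τ z = z := fun z hz => (t1 z).resolve_right fun ⟨d, hd, h⟩ => by
      rcases h with ⟨rfl, -⟩ | ⟨rfl, -⟩
      · exact hcN (hz ▸ (ha d (m d hd)).symm ▸ hd)
      · exact np d (m d hd) ((hb d (m d hd)).symm.trans hz)
    have h1 : Cyc (τ ∘ f) {x | cp x = c} := (hc c).congr fun x hx => fx _ ((hc c).inv x hx)
    have h2 := h1.merge (τ.injective.comp hf) t2 (a := a c) (b := b c) (ha c mc)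
      (by simp [ha c mc, c0, hcN]) (by simpa [hb c mc] using np c mc)
      (by simpa [hb c mc] using (hp' c mc).imp_right And.left)
    refine ⟨Equiv.swap (a c) (b c) * τ, fun z => ?_, ?_⟩
    · have fb : τ (b c) = b c := (t1 _).resolve_right fun ⟨d, hd, h⟩ => by
        rcases h with ⟨e, -⟩ | ⟨e, -⟩
        · exact hab d (m d hd) c mc e.symm
        · exact hcN (hi c mc d (m d hd) e ▸ hd)
      have fa := fx _ (ha c mc)
      by_cases e1 : z = a c
      · exact Or.inr ⟨c, mc, Or.inl ⟨e1, by simp [e1, fa]⟩⟩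
      by_cases e2 : z = b c
      · exact Or.inr ⟨c, mc, Or.inr ⟨e2, by simp [e2, fb]⟩⟩
      have e3 : (Equiv.swap (a c) (b c) * τ) z = τ z :=
        Equiv.swap_apply_of_ne_of_ne (fun e => e1 (τ.injective (e.trans fa.symm)))
          fun e => e2 (τ.injective (e.trans fb.symm))
      rw [e3]
      exact (t1 z).imp_right fun ⟨d, hd, h⟩ => ⟨d, m d hd, h⟩
    · have e : {x | cp x = c₀ ∨ cp x ∈ insert c N} = {x | cp x = c} ∪ {x | cp x = c₀ ∨ cp x ∈ N} := by
        ext x
        simp only [mem_insert, Set.mem_ofPred_eq, Set.mem_union]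
        tauto
      rw [e]
      exact h2

end Pool.Agent.SQL
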