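import Pool.Agent.MP_f56020_al.L2.Cyc

/-! A skew product over two cycles is turned into a map with two cycles. -/

namespace Pool.Agent.SQL

open Function Finset AddSubgroup

theorem height {W : Type*} [AddCommGroup W] [Finite W] (D : ℕ → W) (n : ℕ)
    (h : AddSubgroup.closure {x | ∃ j, 1 ≤ j ∧ j ≤ n ∧ D j = x} = ⊤) :
    ∃ ht jf : W → ℕ, ∀ w ≠ 0, 1 ≤ jf w ∧ jf w ≤ n ∧ ht (w + D (jf w)) < ht w := by
  let R : ℕ → W → Prop := fun k =>
    Nat.rec (fun w => w = 0) (fun _ r w => ∃ j, 1 ≤ j ∧ j ≤ n ∧ r (w + D j)) k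
  have all : ∀ w, ∃ k, R k w := fun w => by
    have h1 : -w ∈ AddSubmonoid.closure {x | ∃ j, 1 ≤ j ∧ j ≤ n ∧ D j = x} := by
      rw [← AddSubgroup.closure_toAddSubmonoid_of_finite, h]
      trivial
    rw [← neg_neg w]
    generalize -w = u at h1 ⊢
    induction h1 using AddSubmonoid.closure_induction_left with
    | zero => exact ⟨0, neg_zero⟩
    | add_left x hx y _ ih =>
      obtain ⟨j, j1, j2, rfl⟩ := hx
      obtain ⟨k, hk⟩ := ih
      exact ⟨k + 1, j, j1, j2, by rwa [neg_add_rev, neg_add_cancel_right]⟩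
  obtain ⟨ht, h1, h2⟩ : ∃ ht : W → ℕ, (∀ w, R (ht w) w) ∧ ∀ w k, R k w → ht w ≤ k :=
    ⟨fun w => sInf {k | R k w}, fun w => Nat.sInf_mem (all w), fun w k h => Nat.sInf_le h⟩
  have key : ∀ w, ∃ j, w ≠ 0 → 1 ≤ j ∧ j ≤ n ∧ ht (w + D j) < ht w := fun w => by
    have h3 := h1 w
    rcases e : ht w with _ | k
    · rw [e] at h3
      exact ⟨0, fun h => absurd h3 h⟩
    · rw [e] at h3
      obtain ⟨j, j1, j2, h4⟩ := h3
      exact ⟨j, fun _ => ⟨j1, j2, Nat.lt_succ_of_le (h2 _ _ h4)⟩⟩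
  choose jf hj using key
  exact ⟨ht, jf, hj⟩

variable {B V : Type*} [Fintype B] [AddCommGroup V] [Finite V]

theorem volt {W : Type*} [AddCommGroup W] [Finite W] (π : V →+ W) {v : V}
    (hπ : ∀ x y, π x = π y → y - x ∈ zmultiples v) (s : B → V) {f : B × W → B × W}
    {F : B × V → B × V} (hf : Injective f)
    (h1 : ∀ z, f (z.1, π z.2) = ((F z).1, π (F z).2)) (h2 : ∀ z, (F z).2 = z.2 + s z.1)
    {O : Set (B × W)} (hO : Cyc f O) (t : Finset (B × W)) (ht : ∀ x, x ∈ t ↔ x ∈ O)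
    (hv : ∑ x ∈ t, s x.1 = v) : Cyc F {z | (z.1, π z.2) ∈ O} := by
  have it : ∀ z k, f^[k] (z.1, π z.2) = ((F^[k] z).1, π (F^[k] z).2) ∧
      (F^[k] z).2 = z.2 + ∑ i ∈ range k, s (f^[i] (z.1, π z.2)).1 := fun z k => by
    induction k with
    | zero => simp
    | succ k ih =>
      rw [iterate_succ_apply', iterate_succ_apply', sum_range_succ, ih.1, h1, h2, ih.2, add_assoc]
      exact ⟨rfl, rfl⟩
  have inv : ∀ z : B × V, (z.1, π z.2) ∈ O → ((F z).1, π (F z).2) ∈ O := fun z hz =>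
    h1 z ▸ hO.inv _ hz
  have one : ∀ z : B × V, (z.1, π z.2) ∈ O → Rch F z (z.1, z.2 + v) ∧ π (z.2 + v) = π z.2 :=
    fun z hz => by
      obtain ⟨e1, e2⟩ := it z (minimalPeriod f (z.1, π z.2))
      rw [iterate_minimalPeriod] at e1
      rw [hO.sum hf hz t ht fun x => s x.1, hv] at e2
      exact ⟨⟨_, Prod.ext (congrArg Prod.fst e1).symm e2⟩, e2 ▸ (congrArg Prod.snd e1).symm⟩
  have many : ∀ (m : ℕ) (z : B × V), (z.1, π z.2) ∈ O → Rch F z (z.1, z.2 + m • v) := fun m => by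
    induction m with
    | zero => exact fun z _ => by simpa using Rch.refl F z
    | succ m ih =>
      intro z hz
      obtain ⟨e1, e2⟩ := one z hz
      have := ih (z.1, z.2 + v) (e2 ▸ hz)
      rw [add_assoc, ← succ_nsmul'] at this
      exact e1.trans this
  refine ⟨inv, fun z hz z' hz' => ?_⟩
  obtain ⟨k, hk⟩ := hO.con _ hz _ hz'
  rw [(it z k).1] at hk
  obtain ⟨m, hm⟩ := mem_multiples_iff_mem_zmultiples.2 (hπ _ _ (congrArg Prod.snd hk))
  have := many m (F^[k] z) (hk ▸ hz')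
  rw [show m • v = _ from hm, add_sub_cancel, (Prod.ext_iff.1 hk).1]
    at this
  exact Rch.trans ⟨k, rfl⟩ this

open Classical in
theorem dyn {β : B → B} (hβ : Injective β) {S : Set B} (hS : Cyc β S) (hS' : Cyc β Sᶜ)
    (s off : B → V) (e : V) (hoff : ∀ b, off (β b) - off b - s b ∈ zmultiples e)
    (h1 : ∑ b with b ∈ S, s b = e) (h2 : ∑ b, s b = 0) (n : ℕ) (a b : ℕ → B)
    (ha : ∀ j, a j ∈ S) (hb : ∀ j, b j ∉ S) (ia : ∀ j, 1 ≤ j → j ≤ n → a j ≠ a 0)
    (ib : ∀ i ≤ n, ∀ j ≤ n, b i = b j → i = j)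
    (hg : AddSubgroup.closure (insert e {x | ∃ j, 1 ≤ j ∧ j ≤ n ∧
      off (a j) - off (b j) - (off (a 0) - off (b 0)) = x}) = ⊤) :
    ∃ τ : V → B → B, (∀ x, τ (x + e) = τ x) ∧ (∀ x, Injective (τ x)) ∧
      (∀ x c, τ x c = c ∨ ∃ j ≤ n, (c = a j ∧ τ x c = b j) ∨ (c = b j ∧ τ x c = a j)) ∧
      Injective (fun z : B × V => (τ (z.2 + s z.1) (β z.1), z.2 + s z.1)) ∧
      Cyc (fun z : B × V => (τ (z.2 + s z.1) (β z.1), z.2 + s z.1))
        {z | z.1 ∈ S ∧ z.2 - off z.1 ∈ zmultiples e} ∧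
      Cyc (fun z : B × V => (τ (z.2 + s z.1) (β z.1), z.2 + s z.1))
        {z | z.1 ∈ S ∧ z.2 - off z.1 ∈ zmultiples e}ᶜ := by
  let π := QuotientAddGroup.mk' (zmultiples e)
  have π0 : ∀ x, π x = 0 ↔ x ∈ zmultiples e := fun x => QuotientAddGroup.eq_zero_iff x
  have πe : π e = 0 := (π0 e).2 (mem_zmultiples e)
  let o : B → V ⧸ zmultiples e := fun c => π (off c)
  let G : ℕ → V ⧸ zmultiples e := fun j => o (a j) - o (b j)
  obtain ⟨ht, jf, hj⟩ := height (fun j => G j - G 0) n (by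
    rw [eq_top_iff, ← AddSubgroup.map_top_of_surjective π (QuotientAddGroup.mk'_surjective _), ← hg,
      AddMonoidHom.map_closure, AddSubgroup.closure_le]
    rintro _ ⟨x, rfl | ⟨j, j1, j2, rfl⟩, rfl⟩
    · rw [πe]
      exact zero_mem _
    · exact AddSubgroup.subset_closure ⟨j, j1, j2, by simp only [G, o, map_sub]⟩)
  let f : B × (V ⧸ zmultiples e) → B × (V ⧸ zmultiples e) := fun z => (β z.1, z.2 + π (s z.1))
  have hf : Injective f := fun z z' h => by
    have e1 : z.1 = z'.1 := hβ (congrArg Prod.fst h)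
    have e2 : z.2 + π (s z.1) = z'.2 + π (s z'.1) := congrArg Prod.snd h
    rw [e1] at e2
    exact Prod.ext e1 (add_right_cancel e2)
  let cp : B × (V ⧸ zmultiples e) → Bool × (V ⧸ zmultiples e) := fun z =>
    (decide (z.1 ∈ S), z.2 - o z.1)
  have cpf : ∀ z, cp (f z) = cp z := fun z => by
    refine Prod.ext (decide_eq_decide.2 ⟨fun h => by_contra fun c => hS'.inv _ c h, hS.inv _⟩) ?_
    have := (π0 _).2 (hoff z.1)
    rw [map_sub, map_sub, sub_eq_zero, sub_eq_iff_eq_add] at this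
    simp only [cp, f, o, this]
    abel
  have hc : ∀ c, Cyc f {z | cp z = c} := fun c => by
    have inv : ∀ z ∈ {z | cp z = c}, f z ∈ {z | cp z = c} := fun z hz => (cpf z).trans hz
    refine ⟨inv, fun z hz z' hz' => ?_⟩
    have e0 : cp z = cp z' := hz.trans hz'.symm
    have e1 : z.1 ∈ S ↔ z'.1 ∈ S := decide_eq_decide.1 (congrArg Prod.fst e0)
    obtain ⟨k, hk⟩ : Rch β z.1 z'.1 := by
      by_cases h : z.1 ∈ S
      · exact hS.con _ h _ (e1.1 h)
      · exact hS'.con _ h _ fun h' => h (e1.2 h')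
    have e2 : ∀ k, (f^[k] z).1 = β^[k] z.1 ∧ cp (f^[k] z) = cp z := fun k => by
      induction k with
      | zero => exact ⟨rfl, rfl⟩
      | succ k ih => rw [iterate_succ_apply', iterate_succ_apply', cpf, ← ih.1]; exact ⟨rfl, ih.2⟩
    have e3 := (e2 k).1.trans hk
    have e4 : (f^[k] z).2 - o (f^[k] z).1 = z'.2 - o z'.1 := congrArg Prod.snd ((e2 k).2.trans e0)
    rw [e3] at e4
    exact ⟨k, Prod.ext e3 (sub_left_injective e4)⟩
  have := Fintype.ofFinite (V ⧸ zmultiples e)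
  let N : Finset (Bool × (V ⧸ zmultiples e)) := {c | c ≠ (true, 0) ∧ c ≠ (false, G 0)}
  let A : Bool × (V ⧸ zmultiples e) → B × (V ⧸ zmultiples e) := fun c =>
    if c.1 then (a (jf c.2), c.2 + o (a (jf c.2))) else (b 0, c.2 + o (b 0))
  let A' : Bool × (V ⧸ zmultiples e) → B × (V ⧸ zmultiples e) := fun c =>
    if c.1 then (b (jf c.2), c.2 + o (a (jf c.2))) else (a 0, c.2 + o (b 0))
  let par : Bool × (V ⧸ zmultiples e) → Bool × (V ⧸ zmultiples e) := fun c =>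
    if c.1 then (false, c.2 + G (jf c.2)) else (true, c.2 - G 0)
  have mt : ∀ I, (true, I) ∈ N ↔ I ≠ 0 := fun I => by simp [N]
  have mf : ∀ I, (false, I) ∈ N ↔ I ≠ G 0 := fun I => by simp [N]
  have cA : ∀ c ∈ N, cp (A c) = c := by
    rintro ⟨_ | _, I⟩ - <;> simp [cp, A, ha, hb]
  have cA' : ∀ c ∈ N, cp (A' c) = par c := by
    rintro ⟨_ | _, I⟩ - <;> simp [cp, A', par, ha, hb, G] <;> abel
  let H : Bool × (V ⧸ zmultiples e) → ℕ := fun c =>
    if c.1 then 2 * ht c.2 else 2 * ht (c.2 - G 0) + 1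
  have hp : ∀ c ∈ N, par c = (false, G 0) ∨ (par c ∈ N ∧ H (par c) < H c) := by
    rintro ⟨_ | _, I⟩ h
    · exact Or.inr ⟨(mt _).2 (sub_ne_zero.2 ((mf _).1 h)), by simp [par, H]⟩
    · by_cases c : I + G (jf I) = G 0
      · exact Or.inl (by simp [par, c])
      · have := (hj I ((mt _).1 h)).2.2
        refine Or.inr ⟨(mf _).2 c, ?_⟩
        simp only [par, H, if_true, Bool.false_eq_true, if_false, add_sub_assoc]
        omega
  obtain ⟨T, t1, t2⟩ := tree hf cp hc (false, G 0) A A' par H N (by simp [N]) cA cA' hp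
    (by
      rintro ⟨_ | _, I⟩ h ⟨_ | _, J⟩ h' q <;>
        simp only [A', if_true, Bool.false_eq_true, if_false, Prod.mk.injEq] at q
      · rw [add_right_cancel q.2]
      · exact absurd (q.1 ▸ ha 0) (hb _)
      · exact absurd (q.1 ▸ ha 0) (hb _)
      · have q1 := ib _ (hj I ((mt _).1 h)).2.1 _ (hj J ((mt _).1 h')).2.1 q.1
        rw [q1] at q
        rw [add_right_cancel q.2])
    (by
      rintro ⟨_ | _, I⟩ h ⟨_ | _, J⟩ h' q <;>
        simp only [A, A', if_true, Bool.false_eq_true, if_false, Prod.mk.injEq] at q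
      · exact hb _ (q.1 ▸ ha 0)
      · have := hj J ((mt _).1 h')
        have := ib _ (Nat.zero_le n) _ this.2.1 q.1
        omega
      · exact ia _ (hj I ((mt _).1 h)).1 (hj I ((mt _).1 h)).2.1 q.1
      · exact hb _ (q.1 ▸ ha _))
  have t3 : ∀ z, (T z).2 = z.2 ∧ ((T z).1 = z.1 ∨
      ∃ j ≤ n, (z.1 = a j ∧ (T z).1 = b j) ∨ (z.1 = b j ∧ (T z).1 = a j)) := fun z => by
    rcases t1 z with h | ⟨⟨_ | _, I⟩, hN, ⟨rfl, h⟩ | ⟨rfl, h⟩⟩ <;> rw [h]
    · exact ⟨rfl, Or.inl rfl⟩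
    · exact ⟨rfl, Or.inr ⟨0, Nat.zero_le n, Or.inr ⟨rfl, rfl⟩⟩⟩
    · exact ⟨rfl, Or.inr ⟨0, Nat.zero_le n, Or.inl ⟨rfl, rfl⟩⟩⟩
    · exact ⟨rfl, Or.inr ⟨_, (hj I ((mt _).1 hN)).2.1, Or.inl ⟨rfl, rfl⟩⟩⟩
    · exact ⟨rfl, Or.inr ⟨_, (hj I ((mt _).1 hN)).2.1, Or.inr ⟨rfl, rfl⟩⟩⟩
  have t4 : Cyc (T ∘ f) {z | cp z = (true, 0)} := (hc _).congr fun z hz =>
    (t1 _).resolve_right fun ⟨c, hN, h⟩ => by
      have q : cp (f z) = (true, 0) := (cpf z).trans hz
      rcases h with ⟨h, -⟩ | ⟨h, -⟩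
      · rw [h, cA c hN] at q
        exact (mt 0).1 (q ▸ hN) rfl
      · rw [h, cA' c hN] at q
        rcases hp c hN with h | h
        · simp [q] at h
        · exact (mt 0).1 (q ▸ h.1) rfl
  have inj : ∀ x, Injective fun c => (T (c, π x)).1 := fun x c c' h =>
    (Prod.ext_iff.1 (T.injective (Prod.ext h ((t3 (c, π x)).1.trans (t3 (c', π x)).1.symm)))).1
  have hF : Injective fun z : B × V => ((T (β z.1, π (z.2 + s z.1))).1, z.2 + s z.1) :=
    fun z z' h => by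
      have e2 : z.2 + s z.1 = z'.2 + s z'.1 := congrArg Prod.snd h
      have e1 : (T (β z.1, π (z.2 + s z.1))).1 = (T (β z'.1, π (z'.2 + s z'.1))).1 :=
        (Prod.ext_iff.1 h).1
      rw [e2] at e1
      have e3 := hβ (inj _ e1)
      rw [e3] at e2
      exact Prod.ext e3 (add_right_cancel e2)
  have hπ : ∀ x y, π x = π y → y - x ∈ zmultiples e := fun x y h =>
    (π0 _).1 (by rw [map_sub, h, sub_self])
  have sc : ∀ z : B × V, (T ∘ f) (z.1, π z.2) =
      ((T (β z.1, π (z.2 + s z.1))).1, π (z.2 + s z.1)) := fun z =>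
    Prod.ext (by simp [f]) ((t3 _).1.trans (by simp [f]))
  have s0 : ∑ x with cp x = (true, 0), s x.1 = e := by
    refine Eq.trans ?_ h1
    refine sum_bij (fun x _ => x.1) (fun x hx => ?_) (fun x hx y hy q => ?_) (fun c hc => ?_)
      fun _ _ => rfl
    · simpa using (show x.1 ∈ S ∧ _ by simpa [cp] using hx).1
    · have q1 : x.1 ∈ S ∧ x.2 - o x.1 = 0 := by simpa [cp] using hx
      have q2 : y.1 ∈ S ∧ y.2 - o y.1 = 0 := by simpa [cp] using hy
      exact Prod.ext q (by rw [sub_eq_zero.1 q1.2, sub_eq_zero.1 q2.2, q])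
    · exact ⟨(c, o c), by simpa [cp] using hc, rfl⟩
  have s1 : ∑ x with ¬ cp x = (true, 0), s x.1 = -e := by
    have := sum_filter_add_sum_filter_not univ (fun x => cp x = (true, 0)) fun x => s x.1
    rw [s0, Fintype.sum_prod_type_right] at this
    rw [eq_neg_iff_add_eq_zero, add_comm, this]
    simp [h2]
  have mem : ∀ z : B × V, cp (z.1, π z.2) = (true, 0) ↔ z.1 ∈ S ∧ z.2 - off z.1 ∈ zmultiples e :=
    fun z => by simp [cp, o, ← π0]
  refine ⟨fun x c => (T (c, π x)).1, fun x => by simp [πe], inj, fun x c => (t3 (c, π x)).2, hF,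
    ?_, ?_⟩
  · have := volt π hπ s (T.injective.comp hf) (F := fun z : B × V => ((T (β z.1, π (z.2 + s z.1))).1, z.2 + s z.1)) sc (fun _ => rfl) t4 _ (by simp) s0
    simpa only [Set.mem_ofPred_eq, mem] using this
  · have := volt π (v := -e) (by simpa using hπ) s (T.injective.comp hf) (F := fun z : B × V => ((T (β z.1, π (z.2 + s z.1))).1, z.2 + s z.1)) sc (fun _ => rfl) t2
      {x | ¬ cp x = (true, 0)} (fun x => by
        by_cases h : cp x = (false, G 0) <;> simp [N, h]) s1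
    convert this using 1
    ext z
    rw [Set.mem_compl_iff, Set.mem_ofPred_eq, ← mem]
    by_cases h : cp (z.1, π z.2) = (false, G 0) <;> simp [N, h]

end Pool.Agent.SQL
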