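import Pool.Agent.MP_f56020_al.L2.Choose
import Pool.Agent.MP_f56020_al.L2.Base

/-! Inequalities, the generator of the torus, the slopes. -/

namespace Pool.Agent.SQL

open Function Finset

theorem nums {p n r k q : ℕ} (hp : 2 ≤ p) (hq : q = p ^ (n + 1)) (h7 : 7 ≤ q) (hr : k * r + 1 = q)
    (hk : k = 1 ∨ (k = 2 ∧ p ≠ 2)) :
    2 * n + 1 < r ∧ 3 ≤ r ∧ n * (p + 1) < q - 1 ∧ (1 ≤ n → p ^ n + k * (n + 1) < q) ∧
      (k = 1 → n + 5 ≤ r ∧ q < 3 * (r - (n + 2))) ∧ (p ≠ 2 → 4 * n < q - 1) := by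
  rw [pow_succ] at hq
  rcases hp.eq_or_lt with rfl | h3
  · obtain rfl : k = 1 := hk.resolve_right fun h => h.2 rfl
    have n2 : 2 ≤ n := by
      by_contra c
      interval_cases n <;> omega
    have : 2 * n ≤ 2 ^ n := by
      obtain ⟨m, rfl⟩ := Nat.exists_eq_add_of_le' (show 1 ≤ n by omega)
      rw [pow_succ']
      exact Nat.mul_le_mul_left 2 Nat.lt_two_pow_self
    omega
  · have h1 : 2 * n + 1 ≤ p ^ n := by
      refine le_trans ?_ (Nat.pow_le_pow_left h3 n)
      clear hq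
      induction n with
      | zero => rfl
      | succ n ih => rw [pow_succ]; omega
    have h2 : p ^ n * 3 ≤ p ^ n * p := Nat.mul_le_mul_left _ h3
    have h4 : (2 * n + 1) * p ≤ p ^ n * p := Nat.mul_le_mul_right _ h1
    have h5 : n * 3 ≤ n * p := Nat.mul_le_mul_left _ h3
    rw [add_mul, mul_assoc] at h4
    rw [mul_add n]
    rcases hk with rfl | ⟨rfl, -⟩ <;> omega

variable {F : Type*} [Field F] [Finite F] {ε : F}

open Classical in
theorem levels (h : ε * ε = 1) : ∃ (g : F) (r : ℕ), g ≠ 0 ∧ Val ε r (g ^ ·) ∧ g ^ r = ε ∧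
    (if ε = 1 then 1 else 2) * r + 1 = Nat.card F ∧ ∀ i, g ^ i = 1 → Nat.card F - 1 ∣ i := by
  obtain ⟨u, hu⟩ := IsCyclic.exists_generator (α := Fˣ)
  have o1 : orderOf (u : F) = Nat.card F - 1 := by
    rw [orderOf_units, orderOf_eq_card_of_forall_mem_zpowers hu, Nat.card_units]
  have q1 : 1 < Nat.card F := Finite.one_lt_card
  have inj : ∀ i < Nat.card F - 1, ∀ j < Nat.card F - 1, (u : F) ^ i = (u : F) ^ j → i = j :=
    fun i hi j hj e => pow_injOn_Iio_orderOf (by simpa [o1] using hi) (by simpa [o1] using hj) e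
  have sj : ∀ y : F, y ≠ 0 → ∃ i < Nat.card F - 1, y = (u : F) ^ i := fun y hy => by
    obtain ⟨i, hi⟩ := mem_powers_iff_mem_zpowers.2 (hu (Units.mk0 y hy))
    refine ⟨i % orderOf (u : F), o1 ▸ Nat.mod_lt _ (by omega), ?_⟩
    rw [pow_mod_orderOf]
    simpa using (congrArg Units.val hi).symm
  have o2 : (u : F) ^ (Nat.card F - 1) = 1 := o1 ▸ pow_orderOf_eq_one _
  have o3 : ∀ i, (u : F) ^ i = 1 → Nat.card F - 1 ∣ i := fun i hi =>
    o1 ▸ orderOf_dvd_of_pow_eq_one hi
  by_cases he : ε = 1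
  · subst he
    exact ⟨u, Nat.card F - 1, u.ne_zero, ⟨fun l _ => pow_ne_zero l u.ne_zero, fun l hl l' hl' e =>
      inj l hl l' hl' (e.elim id fun e => by simpa using e), fun y hy =>
        (sj y hy).imp fun i h => ⟨h.1, Or.inl h.2⟩⟩, o2, by simp; omega, o3⟩
  · obtain ⟨r, r1, r2⟩ := sj ε (left_ne_zero_of_mul_eq_one h)
    have r0 : r ≠ 0 := fun e => he (by simp [r2, e])
    have r3 : 2 * r = Nat.card F - 1 := by
      obtain ⟨m, hm⟩ := o3 (2 * r) (by rw [two_mul, pow_add, ← r2, h])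
      have m0 : m ≠ 0 := by rintro rfl; omega
      have m2 : m < 2 := by
        by_contra! c
        have := Nat.mul_le_mul_left (Nat.card F - 1) c
        omega
      obtain rfl : m = 1 := by omega
      omega
    refine ⟨u, r, u.ne_zero, ⟨fun l _ => pow_ne_zero l u.ne_zero, fun l hl l' hl' e => ?_,
      fun y hy => ?_⟩, r2.symm, by rw [if_neg he]; omega, o3⟩
    · rcases e with e | e
      · exact inj l (by omega) l' (by omega) e
      · have := inj l (by omega) (r + l') (by omega) (by rw [pow_add, ← r2]; exact e)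
        omega
    · obtain ⟨i, i1, rfl⟩ := sj y hy
      by_cases c : i < r
      · exact ⟨i, c, Or.inl rfl⟩
      · exact ⟨i - r, by omega, Or.inr (by rw [r2, ← pow_add, Nat.add_sub_cancel' (not_lt.1 c)])⟩

theorem slopes {n r : ℕ} [NeZero r] (hr : 2 * n + 1 < r) (h7 : 7 ≤ Nat.card F) (g : ℕ → F)
    (hg : ∀ j, g j ≠ 0) : ∃ lam : ZMod r → F, (∀ l, lam l ≠ lam (l + 1)) ∧
      (∀ j ≤ n, lam (2 * j : ℕ) = 0) ∧ ∀ j ≤ n, ∀ l : ZMod r, l + 1 = (2 * j : ℕ) → lam l = g j := by
  classical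
  have := Fintype.ofFinite F
  rw [Nat.card_eq_fintype_card] at h7
  obtain ⟨a, -, ha⟩ := exists_mem_notMem_of_card_lt_card (s := {0, g 0}) (t := univ)
    (card_le_two.trans_lt (by simp; omega))
  obtain ⟨b, -, hb⟩ := exists_mem_notMem_of_card_lt_card (s := {0, g 0, a}) (t := univ)
    (card_le_three.trans_lt (by simp; omega))
  simp only [mem_insert, mem_singleton, not_or] at ha hb
  have v2 : ∀ j ≤ n, ((2 * j : ℕ) : ZMod r).val = 2 * j := fun j hj =>
    ZMod.val_cast_of_lt (by omega)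
  refine ⟨fun l => if l.val = r - 1 then g 0 else if l.val ≤ 2 * n then
    (if l.val % 2 = 0 then 0 else g ((l.val + 1) / 2)) else if l.val % 2 = 0 then a else b,
    fun l => ?_, fun j hj => ?_, fun j hj l hl => ?_⟩
  · rcases val_succ l with ⟨h, h'⟩ | ⟨h, h'⟩ <;> simp only [h] <;> split_ifs <;>
      first | omega | exact hg _ | exact (hg _).symm | exact ha.2 | exact hb.2.1 | exact hb.2.2 |
        exact Ne.symm hb.2.2 | exact Ne.symm hb.1
  · simp only [v2 j hj]
    split_ifs <;> first | omega | rfl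
  · have h2 := v2 j hj
    rw [← hl] at h2
    rcases val_succ l with ⟨h, h'⟩ | ⟨h, h'⟩ <;> simp only <;> split_ifs <;>
      first | omega | (congr 1; omega)

end Pool.Agent.SQL
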