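import Pool.Agent.MP_f56020_al.L2.Core

/-! The quotients of `SL(2, F)` by a central subgroup. -/

namespace Pool.Agent.SQL

open Function Matrix MatrixGroups

variable {F : Type*} [Field F]

theorem smul_iff (z : F) (m m' : SL(2, F)) :
    mt (m⁻¹ * m') = scalar (Fin 2) z ↔ mt m' = z • mt m := by
  have h1 : mt m * mt (m⁻¹ * m') = mt m' := by rw [← mt_mul, mul_inv_cancel_left]
  have h2 : mt m⁻¹ * mt m = 1 := by rw [← mt_mul, inv_mul_cancel, mt_one]
  constructor
  · intro q
    rw [← h1, q, scalar_apply, ← smul_one_eq_diagonal, mul_smul_comm, mul_one]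
  · intro q
    rw [mt_mul, q, mul_smul_comm, h2, scalar_apply, smul_one_eq_diagonal]

theorem qt_of (Z : Subgroup SL(2, F)) [Z.Normal] (hZ : Z ≤ Subgroup.center _) :
    ∃ ε : F, Qt (QuotientGroup.mk' Z) ε := by
  classical
  have n1 : mt (-1 : SL(2, F)) = scalar (Fin 2) (-1 : F) := by
    rw [map_neg, map_one]
    rfl
  have c : ∀ m ∈ Z, m = 1 ∨ m = -1 := fun m hm => by
    obtain ⟨z, z1, z2⟩ := Matrix.SpecialLinearGroup.mem_center_iff.1 (hZ hm)
    rw [Fintype.card_fin, sq_eq_one_iff] at z1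
    rcases z1 with rfl | rfl
    · exact Or.inl (mt_ext (by rw [mt, ← z2, map_one, mt_one]))
    · exact Or.inr (mt_ext (by rw [mt, ← z2, n1]))
  refine ⟨if -1 ∈ Z then -1 else 1, by split_ifs <;> simp, QuotientGroup.mk'_surjective _,
    fun m m' => ?_⟩
  rw [eq_comm, QuotientGroup.mk'_apply, QuotientGroup.mk'_apply, QuotientGroup.eq, ← smul_iff]
  constructor
  · intro q
    rcases c _ q with e | e
    · exact Or.inl (inv_mul_eq_one.1 e).symm
    · rw [e] at q ⊢
      exact Or.inr (by rw [if_pos q, n1])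
  · rintro (rfl | q)
    · simp
    · split_ifs at q with w
      · rwa [mt_ext (q.trans n1.symm)]
      · rw [map_one, ← mt_one] at q
        rw [mt_ext q]
        exact Z.one_mem

end Pool.Agent.SQL
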